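import Mathlib

/-!
# Definitions: hypersurfaces, Hasse-Witt matrices, and period functions
-/

set_option autoImplicit false

namespace Pool.Agent.H19.Ord

universe u

open MvPolynomial

variable {V : Type} [Fintype V]

/-- The exponents `u` with positive coordinates and weighted degree `m`. They number the basis
`x ^ u Ω / (x_1 ⋯ x_r f)` of the space of the regular differential forms of highest degree on the
hypersurface `f = 0` of weighted degree `m`. -/
abbrev Exps (W : V → ℕ) (m : ℕ) : Type :=
  {u : V → Fin (m + 1) // (∀ v, 0 < (u v : ℕ)) ∧ ∑ v, W v * (u v : ℕ) = m}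

/-- The exponent as a finitely supported function. -/
noncomputable def expo {W : V → ℕ} {m : ℕ} (u : Exps W m) : V →₀ ℕ :=
  Finsupp.equivFunOnFinite.symm fun v => (u.1 v : ℕ)

/-- The Hasse-Witt matrix of `f` in characteristic `p`: the coefficients of the `x ^ (p u)` in
`x ^ w f ^ (p - 1)`. -/
noncomputable def hasseWitt {R : Type*} [CommRing R] (W : V → ℕ) (m p : ℕ) (f : MvPolynomial V R) :
    Matrix (Exps W m) (Exps W m) R :=
  Matrix.of fun u w => coeff (p • expo u) (monomial (expo w) 1 * f ^ (p - 1))

/-- The index set of the forms `(-1) ^ (k - 1) (k - 1)! x ^ g Ω / (x_1 ⋯ x_r f ^ k)`, `k ≥ 1`, where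
`g` has positive coordinates and weighted degree `k m`. -/
abbrev Forms (W : V → ℕ) (m : ℕ) : Type :=
  {x : ℕ × (V →₀ ℕ) // 1 ≤ x.1 ∧ ∑ v, W v * x.2 v = x.1 * m ∧ ∀ v, 0 < x.2 v}

/-- The relations between the periods
`ψ k g = ∫_γ (-1) ^ (k - 1) (k - 1)! x ^ g Ω / (x_1 ⋯ x_r f ^ k)`
of a family of hypersurfaces, the coefficients of `f` of which are in the ring `R` with the derivations
`D j`; the values `ψ k g` are in a field `F` which contains `R` (by `φ`) and has derivations `δ j`
extending the `D j`. -/
structure IsPeriod {R F : Type u} [CommRing R] [Field F] {J : Type} (W : V → ℕ) (m : ℕ)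
    (f : MvPolynomial V R) (D : J → Derivation ℤ R R) (φ : R →+* F) (δ : J → Derivation ℤ F F)
    (ψ : ℕ → (V →₀ ℕ) → F) : Prop where
  /-- the exact forms `x_i ∂_i (x ^ g / f ^ k)` have the periods `0` -/
  stokes : ∀ (k : ℕ) (g : V →₀ ℕ) (i : V), 1 ≤ k → ∑ v, W v * g v = k * m →
    (∀ v, v ≠ i → 0 < g v) →
      (g i : F) * ψ k g + ∑ a ∈ f.support, φ (coeff a f) * (a i : F) * ψ (k + 1) (g + a) = 0
  /-- differentiation under the integral sign -/
  flat : ∀ (k : ℕ) (g : V →₀ ℕ) (j : J), 1 ≤ k → ∑ v, W v * g v = k * m → (∀ v, 0 < g v) →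
    δ j (ψ k g) = ∑ a ∈ f.support, φ (D j (coeff a f)) * ψ (k + 1) (g + a)

/-- The degree of an exponent in a group of weights. -/
def gdeg {G : Type} [AddCommGroup G] (χ : V → G) (g : V →₀ ℕ) : G := ∑ v, g v • χ v

/-- **The period matrices of the regular forms are invertible**: for each character `c ∈ G` and each
field `F` with derivations which contains `R`, if `ψ u` are linearly independent period functions,
supported on the forms with the character `c`, and their number is the number of the regular forms of
highest degree with this character, then they are linearly independent on these regular forms. -/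
def NonvanishingPeriods {R : Type u} [CommRing R] {J : Type} {G : Type} [AddCommGroup G]
    (W : V → ℕ) (m : ℕ) (f : MvPolynomial V R) (D : J → Derivation ℤ R R) (χ : V → G) : Prop :=
  ∀ (c : G) (F : Type u) [Field F] [CharZero F] (φ : R →+* F) (δ : J → Derivation ℤ F F),
    Function.Injective φ → (∀ j a, δ j (φ a) = φ (D j a)) →
    ∀ ψ : {u : Exps W m // gdeg χ (expo u) = c} → ℕ → (V →₀ ℕ) → F,
      (∀ u, IsPeriod W m f D φ δ (ψ u)) → (∀ u k g, gdeg χ g ≠ c → ψ u k g = 0) →
      LinearIndependent F (fun u => fun x : Forms W m => ψ u x.1.1 x.1.2) →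
      LinearIndependent F
        (fun u => fun w : {w : Exps W m // gdeg χ (expo w) = c} => ψ u 1 (expo w.1))

end Pool.Agent.H19.Ord
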