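import Mathlib
import Pool.Agent.H19.Ord.Defs

/-!
In characteristic `p` the coefficients of the powers of `f` are period functions.
-/

set_option autoImplicit false

namespace Pool.Agent.H19.Ord

universe u

open MvPolynomial

section cder

variable {V : Type*} {R : Type*} [CommRing R] (δ : Derivation ℤ R R)

/-- the additive map which applies a derivation to the coefficients -/
noncomputable def cmap (G : MvPolynomial V R) : MvPolynomial V R :=
  ∑ m ∈ G.support, monomial m (δ (coeff m G))

lemma coeff_cmap (G : MvPolynomial V R) (m : V →₀ ℕ) : coeff m (cmap δ G) = δ (coeff m G) := by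
  classical
  rw [cmap, coeff_sum]
  simp only [coeff_monomial]
  rw [Finset.sum_ite_eq']
  split_ifs with h
  · rfl
  · rw [notMem_support_iff.1 h, map_zero]

/-- the derivation of the polynomial ring which applies a derivation to the coefficients -/
noncomputable def cder : Derivation ℤ (MvPolynomial V R) (MvPolynomial V R) :=
  Derivation.mk'
    (AddMonoidHom.mk' (cmap δ) fun G H => by
      ext m
      rw [coeff_cmap, coeff_add, coeff_add, coeff_cmap, coeff_cmap, map_add]).toIntLinearMap
    fun G H => by
      classical
      ext m
      simp only [AddMonoidHom.coe_toIntLinearMap, AddMonoidHom.mk'_apply, smul_eq_mul]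
      rw [coeff_cmap, coeff_add, coeff_mul, coeff_mul, mul_comm H, coeff_mul, map_sum,
        ← Finset.sum_add_distrib]
      refine Finset.sum_congr rfl fun x _ => ?_
      rw [Derivation.leibniz, coeff_cmap, coeff_cmap]
      simp only [smul_eq_mul]
      ring

lemma coeff_cder (G : MvPolynomial V R) (m : V →₀ ℕ) : coeff m (cder δ G) = δ (coeff m G) :=
  coeff_cmap δ G m

end cder

section theta

variable {V : Type*} {R : Type*} [CommRing R]

lemma coeff_theta (i : V) (G : MvPolynomial V R) (m : V →₀ ℕ) :
    coeff m (X i * pderiv i G) = (m i : R) * coeff m G := by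
  classical
  induction G using MvPolynomial.induction_on' with
  | monomial s a =>
    rw [pderiv_monomial, coeff_monomial]
    by_cases hs : s i = 0
    · rw [hs]
      simp only [Nat.cast_zero, mul_zero, monomial_zero, coeff_zero]
      split_ifs with h
      · rw [← h, hs]; simp
      · simp
    · have h1 : X i * monomial (s - Finsupp.single i 1) (a * (s i : R)) =
          monomial s (a * (s i : R)) := by
        have e : Finsupp.single i 1 + (s - Finsupp.single i 1) = s := by
          ext j
          rw [Finsupp.add_apply, Finsupp.tsub_apply, Finsupp.single_apply]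
          split_ifs with hj
          · rw [← hj]; omega
          · omega
        rw [X, monomial_mul, one_mul, e]
      rw [h1, coeff_monomial]
      split_ifs with h
      · rw [← h]; ring
      · simp
  | add p q hp hq => rw [map_add, mul_add, coeff_add, coeff_add, hp, hq]; ring

lemma theta_mul (i : V) (G H : MvPolynomial V R) :
    X i * pderiv i (G * H) = G * (X i * pderiv i H) + H * (X i * pderiv i G) := by
  rw [Derivation.leibniz]
  simp only [smul_eq_mul]
  ring

end theta

section frob

variable {V : Type} [Fintype V] {R κ : Type u} [CommRing R] [Field κ] (φ : R →+* κ) (p : ℕ)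

/-- the factor -/
noncomputable def fac (κ : Type u) [Field κ] (p k : ℕ) : κ := -((((p - k).factorial : ℕ) : κ))⁻¹

/-- the period function of the Frobenius -/
noncomputable def frob (f : MvPolynomial V R) (u : V →₀ ℕ) (k : ℕ) (g : V →₀ ℕ) : κ :=
  if k ≤ p then fac κ p k * coeff (p • u) (monomial g 1 * (map φ f) ^ (p - k)) else 0

lemma fact_ne [CharP κ p] (hp : p.Prime) (n : ℕ) (hn : n < p) : ((n.factorial : ℕ) : κ) ≠ 0 := by
  intro h
  rw [CharP.cast_eq_zero_iff κ p] at h
  exact absurd ((hp.dvd_factorial).1 h) (by omega)

lemma fac_step [CharP κ p] (hp : p.Prime) (k : ℕ) (h1 : 1 ≤ k) (hk : k < p) :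
    fac κ p k * ((p - k : ℕ) : κ) = fac κ p (k + 1) := by
  have e : p - k = (p - (k + 1)) + 1 := by omega
  have h2 := fact_ne (κ := κ) p hp (p - (k + 1)) (by omega)
  have h3 := fact_ne (κ := κ) p hp (p - k) (by omega)
  have h4 : ((p - k).factorial : κ) = ((p - k : ℕ) : κ) * ((p - (k + 1)).factorial : κ) := by
    rw [e, Nat.factorial_succ]; push_cast
    rfl
  have h5 : ((p - k : ℕ) : κ) ≠ 0 := by
    intro h; rw [h4, h, zero_mul] at h3; exact h3 rfl
  rw [fac, fac, h4, mul_inv]
  field_simp

lemma der_fac (δ : Derivation ℤ κ κ) [CharP κ p] (hp : p.Prime) (k : ℕ) (hk : 1 ≤ k) :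
    δ (fac κ p k) = 0 := by
  have h2 := fact_ne (κ := κ) p hp (p - k) (by have := hp.pos; omega)
  have h3 : fac κ p k * ((p - k).factorial : κ) = -1 := by
    rw [fac, neg_mul, inv_mul_cancel₀ h2]
  have h4 := congrArg δ h3
  rw [Derivation.leibniz, Derivation.map_natCast, smul_zero, zero_add, map_neg,
    Derivation.map_one_eq_zero, neg_zero, smul_eq_mul] at h4
  exact (mul_eq_zero.1 h4).resolve_left h2

lemma map_eq_sum (f : MvPolynomial V R) :
    map φ f = ∑ a ∈ f.support, monomial a (φ (coeff a f)) := by
  conv_lhs => rw [f.as_sum]
  rw [map_sum]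
  simp only [map_monomial]

/-- the period functions of the Frobenius satisfy the relations -/
theorem frob_isPeriod [CharP κ p] (hp : p.Prime) {J : Type} (W : V → ℕ) (m : ℕ)
    (f : MvPolynomial V R) (D : J → Derivation ℤ R R) (δ : J → Derivation ℤ κ κ)
    (hδ : ∀ j a, δ j (φ a) = φ (D j a)) (u : V →₀ ℕ) :
    IsPeriod W m f D φ δ (frob φ p f u) := by
  classical
  have hpc : ((p : ℕ) : κ) = 0 := CharP.cast_eq_zero κ p
  constructor
  · intro k g i hk _ _
    rcases lt_trichotomy k p with h | h | h
    · -- `k < p`
      simp only [frob]
      rw [if_pos h.le]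
      simp only [if_pos (by omega : k + 1 ≤ p)]
      set F := map φ f with hF
      have h1 := coeff_theta i (monomial g (1 : κ) * F ^ (p - k)) (p • u)
      have h2 : ((p • u) i : κ) = 0 := by
        simp [hpc]
      rw [h2, zero_mul, theta_mul, coeff_add] at h1
      have h3 : coeff (p • u) (F ^ (p - k) * (X i * pderiv i (monomial g (1 : κ)))) =
          (g i : κ) * coeff (p • u) (monomial g (1 : κ) * F ^ (p - k)) := by
        have e : X i * pderiv i (monomial g (1 : κ)) = C (g i : κ) * monomial g 1 := by
          ext s
          rw [coeff_theta, coeff_C_mul, coeff_monomial]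
          split_ifs with hs
          · rw [hs]
          · simp
        rw [e, mul_left_comm, coeff_C_mul, mul_comm (F ^ (p - k))]
      have h4 : X i * pderiv i (F ^ (p - k)) =
          C ((p - k : ℕ) : κ) * ∑ a ∈ f.support,
            monomial a (φ (coeff a f) * (a i : κ)) * F ^ (p - (k + 1)) := by
        rw [Derivation.leibniz_pow, ← Finset.sum_mul]
        have e : X i * pderiv i F = ∑ a ∈ f.support, monomial a (φ (coeff a f) * (a i : κ)) := by
          rw [hF, map_eq_sum, map_sum, Finset.mul_sum]
          refine Finset.sum_congr rfl fun a _ => ?_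
          ext s
          rw [coeff_theta, coeff_monomial, coeff_monomial]
          split_ifs with hs
          · rw [hs]; ring
          · simp
        have e2 : p - k - 1 = p - (k + 1) := by omega
        rw [← e, e2, nsmul_eq_mul, smul_eq_mul]
        simp only [map_natCast]
        ring
      rw [h4, h3] at h1
      have h5 : coeff (p • u) (monomial g (1 : κ) * (C ((p - k : ℕ) : κ) * ∑ a ∈ f.support,
            monomial a (φ (coeff a f) * (a i : κ)) * F ^ (p - (k + 1)))) =
          ((p - k : ℕ) : κ) * ∑ a ∈ f.support, φ (coeff a f) * (a i : κ) *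
            coeff (p • u) (monomial (g + a) (1 : κ) * F ^ (p - (k + 1))) := by
        rw [mul_left_comm, coeff_C_mul, Finset.mul_sum, coeff_sum]
        congr 1
        refine Finset.sum_congr rfl fun a _ => ?_
        rw [← mul_assoc, monomial_mul, one_mul]
        have : monomial (g + a) (φ (coeff a f) * (a i : κ)) =
          C (φ (coeff a f) * (a i : κ)) * monomial (g + a) (1 : κ) := by
            rw [C_mul_monomial, mul_one]
        rw [this, mul_assoc, coeff_C_mul]
      rw [h5] at h1
      have h6 := congrArg (fun z => fac κ p k * z) h1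
      simp only [mul_zero, mul_add] at h6
      rw [← mul_assoc (fac κ p k) ((p - k : ℕ) : κ), fac_step p hp k hk h, Finset.mul_sum] at h6
      rw [← h6, add_comm]
      congr 1
      · refine Finset.sum_congr rfl fun a _ => ?_
        ring
      · ring
    · -- `k = p`
      subst h
      simp only [frob]
      rw [if_pos le_rfl]
      have h0 : ∀ a ∈ f.support, φ (coeff a f) * (a i : κ) *
          (if k + 1 ≤ k then fac κ k (k + 1) *
            coeff (k • u) (monomial (g + a) (1 : κ) * (map φ f) ^ (k - (k + 1))) else 0) = 0 := by
        intro a _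
        rw [if_neg (by omega), mul_zero]
      rw [Finset.sum_eq_zero h0, add_zero, Nat.sub_self, pow_zero, mul_one, coeff_monomial]
      split_ifs with hg
      · rw [hg]; simp [hpc]
      · simp
    · -- `k > p`
      simp only [frob]
      rw [if_neg (by omega)]
      have h0 : ∀ a ∈ f.support, φ (coeff a f) * (a i : κ) *
          (if k + 1 ≤ p then fac κ p (k + 1) *
            coeff (p • u) (monomial (g + a) (1 : κ) * (map φ f) ^ (p - (k + 1))) else 0) = 0 := by
        intro a _
        rw [if_neg (by omega), mul_zero]
      rw [Finset.sum_eq_zero h0, add_zero, mul_zero]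
  · intro k g j hk _ _
    rcases lt_trichotomy k p with h | h | h
    · simp only [frob]
      rw [if_pos h.le]
      simp only [if_pos (by omega : k + 1 ≤ p)]
      set F := map φ f with hF
      rw [Derivation.leibniz, der_fac p (δ j) hp k hk, smul_zero, add_zero, smul_eq_mul,
        ← coeff_cder, Derivation.leibniz]
      have h1 : cder (δ j) (monomial g (1 : κ)) = 0 := by
        ext s
        rw [coeff_cder, coeff_monomial, coeff_zero]
        split_ifs
        · simp
        · simp
      have h2 : cder (δ j) F = ∑ a ∈ f.support, monomial a (φ (D j (coeff a f))) := by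
        rw [hF, map_eq_sum, map_sum]
        refine Finset.sum_congr rfl fun a _ => ?_
        ext s
        rw [coeff_cder, coeff_monomial, coeff_monomial]
        split_ifs with hs
        · rw [hδ]
        · simp
      have e2 : p - k - 1 = p - (k + 1) := by omega
      rw [h1, smul_zero, add_zero, Derivation.leibniz_pow, h2, e2, nsmul_eq_mul, smul_eq_mul,
        smul_eq_mul]
      have h5 : coeff (p • u) (monomial g (1 : κ) * (((p - k : ℕ) : MvPolynomial V κ) *
          (F ^ (p - (k + 1)) * ∑ a ∈ f.support, monomial a (φ (D j (coeff a f)))))) =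
          ((p - k : ℕ) : κ) * ∑ a ∈ f.support, φ (D j (coeff a f)) *
            coeff (p • u) (monomial (g + a) (1 : κ) * F ^ (p - (k + 1))) := by
        have e3 : ((p - k : ℕ) : MvPolynomial V κ) = C ((p - k : ℕ) : κ) := by simp
        rw [e3, mul_left_comm, coeff_C_mul, Finset.mul_sum, Finset.mul_sum, coeff_sum]
        congr 1
        refine Finset.sum_congr rfl fun a _ => ?_
        rw [mul_left_comm, ← mul_assoc, mul_comm (F ^ (p - (k + 1))), mul_assoc,
          mul_comm (F ^ (p - (k + 1))), ← mul_assoc, monomial_mul, one_mul]
        have : monomial (g + a) (φ (D j (coeff a f))) =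
          C (φ (D j (coeff a f))) * monomial (g + a) (1 : κ) := by
            rw [C_mul_monomial, mul_one]
        rw [this, mul_assoc, coeff_C_mul]
      rw [h5, ← mul_assoc, fac_step p hp k hk h, Finset.mul_sum]
      refine Finset.sum_congr rfl fun a _ => ?_
      ring
    · subst h
      simp only [frob]
      rw [if_pos le_rfl]
      have h0 : ∀ a ∈ f.support, φ (D j (coeff a f)) *
          (if k + 1 ≤ k then fac κ k (k + 1) *
            coeff (k • u) (monomial (g + a) (1 : κ) * (map φ f) ^ (k - (k + 1))) else 0) = 0 := by
        intro a _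
        rw [if_neg (by omega), mul_zero]
      rw [Finset.sum_eq_zero h0, Nat.sub_self, pow_zero, mul_one, Derivation.leibniz,
        der_fac k (δ j) hp k hk, smul_zero, add_zero, coeff_monomial]
      split_ifs
      · simp
      · simp
    · simp only [frob]
      rw [if_neg (by omega), map_zero]
      symm
      refine Finset.sum_eq_zero fun a _ => ?_
      rw [if_neg (by omega), mul_zero]

end frob

end Pool.Agent.H19.Ord
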