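import Mathlib
import Pool.Agent.H19.Ord.Defs

/-!
# Definitions: big monodromy
-/

set_option autoImplicit false

namespace Pool.Agent.H19.Ord

universe u

open MvPolynomial

/-- The set `S` of matrices is contained in the Zariski closure of the set `T`: each polynomial which
vanishes on `T` vanishes on `S`. -/
def InClosure {E : Type u} [Field E] {n : ℕ} (T S : Set (Matrix (Fin n) (Fin n) E)) : Prop :=
  ∀ Q : MvPolynomial (Fin n × Fin n) E, (∀ g ∈ T, eval (fun x => g x.1 x.2) Q = 0) →
    ∀ g ∈ S, eval (fun x => g x.1 x.2) Q = 0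

/-- The Zariski closure of the set `T` of matrices contains the special linear group, or the
symplectic group of a nondegenerate alternating form, or the orthogonal group of a nondegenerate
symmetric form, or, if `2 r < n`, its special orthogonal group. -/
def Big {E : Type u} [Field E] {n : ℕ} (r : ℕ) (T : Set (Matrix (Fin n) (Fin n) E)) : Prop :=
  InClosure T {g | g.det = 1} ∨
  (∃ A : Matrix (Fin n) (Fin n) E, A.transpose = -A ∧ A.det ≠ 0 ∧
    InClosure T {g | g.transpose * A * g = A}) ∨
  (∃ A : Matrix (Fin n) (Fin n) E, A.transpose = A ∧ A.det ≠ 0 ∧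
    InClosure T {g | g.transpose * A * g = A}) ∨
  (2 * r < n ∧ ∃ A : Matrix (Fin n) (Fin n) E, A.transpose = A ∧ A.det ≠ 0 ∧
    InClosure T {g | g.transpose * A * g = A ∧ g.det = 1})

variable {V : Type} [Fintype V] {R : Type u} [CommRing R] {J : Type}

/-- Griffiths' relations for a function `s` on the forms with values in a field. -/
def Griffiths {E : Type u} [Field E] (W : V → ℕ) (m : ℕ) (f : MvPolynomial V R) (φ : R →+* E)
    (s : ℕ → (V →₀ ℕ) → E) : Prop :=
  ∀ (k : ℕ) (g : V →₀ ℕ) (i : V), 1 ≤ k → ∑ v, W v * g v = k * m → (∀ v, v ≠ i → 0 < g v) →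
    (g i : E) * s k g + ∑ a ∈ f.support, φ (coeff a f) * (a i : E) * s (k + 1) (g + a) = 0

/-- The period functions `π i`, `i < n`, with values in the field `E` are a basis of the solutions with
the character `c`: they are linearly independent, and all functions with the character `c` which satisfy
Griffiths' relations are linear combinations of them (so `n` is the dimension of the eigenspace `H_c` of
the cohomology). The regular forms with the character `c` are linearly independent in `H_c`. -/
structure IsSolutionBasis {G : Type} [AddCommGroup G] {E : Type u} [Field E] (W : V → ℕ) (m : ℕ)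
    (f : MvPolynomial V R) (D : J → Derivation ℤ R R) (χ : V → G) (c : G) (φ : R →+* E)
    (ε : J → Derivation ℤ E E) {n : ℕ} (π : Fin n → ℕ → (V →₀ ℕ) → E) : Prop where
  period : ∀ i, IsPeriod W m f D φ ε (π i)
  support : ∀ i k g, gdeg χ g ≠ c → π i k g = 0
  indep : LinearIndependent E (fun i => fun x : Forms W m => π i x.1.1 x.1.2)
  complete : ∀ s : ℕ → (V →₀ ℕ) → E, Griffiths W m f φ s → (∀ k g, gdeg χ g ≠ c → s k g = 0) →
    ∃ l : Fin n → E, ∀ x : Forms W m, s x.1.1 x.1.2 = ∑ i, l i * π i x.1.1 x.1.2
  regular : LinearIndependent E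
    (fun w : {w : Exps W m // gdeg χ (expo w) = c} => fun i => π i 1 (expo w.1))

/-- The matrices of the monodromy, or differential Galois, group on the solutions `π`: the matrices `g`
with constant entries such that some automorphism `γ` of the field `E`, which commutes with the
derivations and is the identity on `R` and on the constants, maps `π i` to `∑ π i' g (i', i)`. -/
def monodromy {E : Type u} [Field E] (W : V → ℕ) (m : ℕ) (φ : R →+* E)
    (ε : J → Derivation ℤ E E) {n : ℕ} (π : Fin n → ℕ → (V →₀ ℕ) → E) :
    Set (Matrix (Fin n) (Fin n) E) :=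
  {g | (∀ i i' j, ε j (g i i') = 0) ∧ ∃ γ : E ≃+* E, (∀ a, γ (φ a) = φ a) ∧
    (∀ j x, γ (ε j x) = ε j (γ x)) ∧ (∀ x, (∀ j, ε j x = 0) → γ x = x) ∧
    ∀ i (x : Forms W m), γ (π i x.1.1 x.1.2) = ∑ i', π i' x.1.1 x.1.2 * g i' i}

/-- **Big monodromy**: for each character `c` of a regular form there is a basis of the solutions with this
character, in some field with derivations, for which either `H_c` consists of the regular forms or the
Zariski closure of the monodromy group on the solutions contains the special linear, the symplectic or the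
orthogonal group. -/
def BigMonodromy {G : Type} [AddCommGroup G] (W : V → ℕ) (m : ℕ) (f : MvPolynomial V R)
    (D : J → Derivation ℤ R R) (χ : V → G) : Prop :=
  ∀ c : G, (∃ w : Exps W m, gdeg χ (expo w) = c) →
    ∃ (E : Type u) (_ : Field E) (φ : R →+* E) (ε : J → Derivation ℤ E E) (n : ℕ)
      (π : Fin n → ℕ → (V →₀ ℕ) → E), Function.Injective φ ∧ (∀ j a, ε j (φ a) = φ (D j a)) ∧
      IsSolutionBasis W m f D χ c φ ε π ∧
      (n = Nat.card {w : Exps W m // gdeg χ (expo w) = c} ∨
        Big (Nat.card {w : Exps W m // gdeg χ (expo w) = c}) (monodromy W m φ ε π))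

end Pool.Agent.H19.Ord
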