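import Mathlib
import Pool.Agent.H19.Ord.Frob

/-!
Reduction of the order of the poles: the Frobenius period functions are linearly independent on the
forms with poles of bounded order.
-/

set_option autoImplicit false

namespace Pool.Agent.H19.Ord

universe u

open MvPolynomial

variable {V : Type} [Fintype V] {R κ : Type u} [CommRing R] [Field κ]

/-- the first relation between periods -/
def Stokes (W : V → ℕ) (m : ℕ) (f : MvPolynomial V R) (φ : R →+* κ) (ψ : ℕ → (V →₀ ℕ) → κ) : Prop :=
  ∀ (k : ℕ) (g : V →₀ ℕ) (i : V), 1 ≤ k → ∑ v, W v * g v = k * m →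
    (∀ v, v ≠ i → 0 < g v) →
      (g i : κ) * ψ k g + ∑ a ∈ f.support, φ (coeff a f) * (a i : κ) * ψ (k + 1) (g + a) = 0

lemma Stokes.sum {ι : Type*} (s : Finset ι) {W : V → ℕ} {m : ℕ} {f : MvPolynomial V R} {φ : R →+* κ}
    (ψ : ι → ℕ → (V →₀ ℕ) → κ) (h : ∀ u, Stokes W m f φ (ψ u)) (c : ι → κ) :
    Stokes W m f φ (fun k g => ∑ u ∈ s, c u * ψ u k g) := by
  intro k g i hk hg hpos
  have h1 : ∀ u, c u * ((g i : κ) * ψ u k g +
      ∑ a ∈ f.support, φ (coeff a f) * (a i : κ) * ψ u (k + 1) (g + a)) = 0 := by
    intro u; rw [h u k g i hk hg hpos, mul_zero]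
  have h2 := Finset.sum_eq_zero (s := s) fun u _ => h1 u
  rw [← h2]
  simp only [mul_add, Finset.sum_add_distrib, Finset.mul_sum]
  congr 1
  · refine Finset.sum_congr rfl fun u _ => ?_
    ring
  · rw [Finset.sum_comm]
    refine Finset.sum_congr rfl fun u _ => ?_
    refine Finset.sum_congr rfl fun a _ => ?_
    ring

/-- all monomials of large degree are in the Jacobian ideal -/
def JacFrom (W : V → ℕ) (F : MvPolynomial V κ) (N : ℕ) : Prop :=
  ∀ s : V →₀ ℕ, N ≤ ∑ v, W v * s v →
    monomial s (1 : κ) ∈ Ideal.span (Set.range fun i => pderiv i F)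

lemma jacFrom_of_pow (W : V → ℕ) (F : MvPolynomial V κ) (n : ℕ)
    (h : ∀ v, (X v : MvPolynomial V κ) ^ n ∈ Ideal.span (Set.range fun i => pderiv i F)) :
    JacFrom W F ((∑ v, W v) * n + 1) := by
  classical
  intro s hs
  have h1 : ∃ v, n ≤ s v := by
    by_contra hcon
    push Not at hcon
    have h2 : ∑ v, W v * s v ≤ ∑ v, W v * n :=
      Finset.sum_le_sum fun v _ => Nat.mul_le_mul_left _ (hcon v).le
    rw [← Finset.sum_mul] at h2
    omega
  obtain ⟨v, hv⟩ := h1
  have e : s = Finsupp.single v n + (s - Finsupp.single v n) := by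
    ext j
    rw [Finsupp.add_apply, Finsupp.tsub_apply, Finsupp.single_apply]
    split_ifs with hj
    · rw [← hj]; omega
    · omega
  have h2 : monomial s (1 : κ) = X v ^ n * monomial (s - Finsupp.single v n) 1 := by
    rw [X_pow_eq_monomial, monomial_mul, one_mul, ← e]
  rw [h2]
  exact Ideal.mul_mem_right _ _ (h v)

lemma sum_pos_of_support {W : V → ℕ} {m : ℕ} (g a : V →₀ ℕ) (k : ℕ) (ha : ∑ v, W v * a v = m)
    (hg : ∑ v, W v * g v = k * m) : ∑ v, W v * (g + a) v = (k + 1) * m := by
  simp only [Finsupp.add_apply, mul_add, Finset.sum_add_distrib, ha, hg]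
  ring

/-- **Reduction of the order of the poles.** -/
theorem reduction (W : V → ℕ) (m : ℕ) (hm : 1 ≤ m) (f : MvPolynomial V R)
    (hf : ∀ a ∈ f.support, ∑ v, W v * a v = m) (φ : R →+* κ) (N : ℕ)
    (hN : JacFrom W (map φ f) N) (ψ : ℕ → (V →₀ ℕ) → κ) (hψ : Stokes W m f φ ψ)
    (h0 : ∀ k g, 1 ≤ k → k ≤ N + ∑ v, W v + 1 → ∑ v, W v * g v = k * m → (∀ v, 0 < g v) →
      ψ k g = 0) :
    ∀ k g, 1 ≤ k → ∑ v, W v * g v = k * m → (∀ v, 0 < g v) → ψ k g = 0 := by
  classical
  intro k
  induction k with
  | zero => intro g h; omega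
  | succ k ih =>
    intro g _ hg hpos
    by_cases hk : k + 1 ≤ N + ∑ v, W v + 1
    · exact h0 (k + 1) g (by omega) hk hg hpos
    have hk1 : 1 ≤ k := by omega
    -- the functional
    let ψ' : (V →₀ ℕ) → κ := fun s => if ∑ v, W v * s v = (k + 1) * m then ψ (k + 1) s else 0
    let Λ : MvPolynomial V κ →ₗ[κ] κ := (MvPolynomial.basisMonomials V κ).constr κ ψ'
    have hΛ : ∀ s c, Λ (monomial s c) = c * ψ' s := by
      intro s c
      have h1 : monomial s c = c • (MvPolynomial.basisMonomials V κ s) := by
        rw [MvPolynomial.coe_basisMonomials, smul_monomial, smul_eq_mul, mul_one]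
      rw [h1, map_smul, Module.Basis.constr_basis, smul_eq_mul]
    -- the exact forms
    have hex : ∀ (i : V) (s : V →₀ ℕ) (c : κ), (∀ v, v ≠ i → 0 < s v) →
        Λ (monomial s c * (X i * pderiv i (map φ f))) = 0 := by
      intro i s c hs
      have e : X i * pderiv i (map φ f) =
          ∑ a ∈ f.support, monomial a (φ (coeff a f) * (a i : κ)) := by
        rw [map_eq_sum, map_sum, Finset.mul_sum]
        refine Finset.sum_congr rfl fun a _ => ?_
        ext t
        rw [coeff_theta, coeff_monomial, coeff_monomial]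
        split_ifs with ht
        · rw [ht]; ring
        · simp
      rw [e, Finset.mul_sum, map_sum]
      simp only [monomial_mul, hΛ]
      by_cases hdeg : ∑ v, W v * s v = k * m
      · have h1 := hψ k s i hk1 hdeg hs
        have h2 : (s i : κ) * ψ k s = 0 := by
          by_cases hsi : s i = 0
          · rw [hsi]; simp
          · have h3 : ∀ v, 0 < s v := by
              intro v
              by_cases hv : v = i
              · rw [hv]; omega
              · exact hs v hv
            rw [ih s hk1 hdeg h3, mul_zero]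
        rw [h2, zero_add] at h1
        have h4 : ∑ a ∈ f.support, c * (φ (coeff a f) * (a i : κ)) * ψ' (s + a) =
            c * ∑ a ∈ f.support, φ (coeff a f) * (a i : κ) * ψ (k + 1) (s + a) := by
          rw [Finset.mul_sum]
          refine Finset.sum_congr rfl fun a ha => ?_
          have h5 := sum_pos_of_support s a k (hf a ha) hdeg
          simp only [ψ', if_pos h5]
          ring
        rw [h4, h1, mul_zero]
      · refine Finset.sum_eq_zero fun a ha => ?_
        have h5 : ∑ v, W v * (s + a) v ≠ (k + 1) * m := by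
          intro h6
          apply hdeg
          simp only [Finsupp.add_apply, mul_add, Finset.sum_add_distrib, hf a ha] at h6
          have : (k + 1) * m = k * m + m := by ring
          omega
        simp only [ψ', if_neg h5, mul_zero]
    -- `x ^ g` is a combination of them
    let one : V →₀ ℕ := Finsupp.equivFunOnFinite.symm fun _ => 1
    have hone : ∀ v, one v = 1 := fun v => rfl
    have hgs : g = one + (g - one) := by
      ext v
      rw [Finsupp.add_apply, Finsupp.tsub_apply, hone]
      have := hpos v
      omega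
    have hdeg1 : ∑ v, W v * (g - one) v + ∑ v, W v = (k + 1) * m := by
      rw [← hg, ← Finset.sum_add_distrib]
      refine Finset.sum_congr rfl fun v _ => ?_
      rw [Finsupp.tsub_apply, hone]
      have := hpos v
      obtain ⟨n, hn⟩ : ∃ n, g v = n + 1 := ⟨g v - 1, by omega⟩
      rw [hn]
      simp
      ring
    have hdeg2 : N ≤ ∑ v, W v * (g - one) v := by
      have : k + 1 ≤ (k + 1) * m := Nat.le_mul_of_pos_right _ hm
      omega
    have hJ := hN (g - one) hdeg2
    rw [Ideal.mem_span_range_iff_exists_fun] at hJ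
    obtain ⟨B, hB⟩ := hJ
    have hsum : monomial g (1 : κ) = ∑ i, monomial (one - Finsupp.single i 1) (1 : κ) * B i *
        (X i * pderiv i (map φ f)) := by
      have h1 : monomial g (1 : κ) = monomial one 1 * monomial (g - one) 1 := by
        rw [monomial_mul, one_mul, ← hgs]
      rw [h1, ← hB, Finset.mul_sum]
      refine Finset.sum_congr rfl fun i _ => ?_
      have e : Finsupp.single i 1 + (one - Finsupp.single i 1) = one := by
        ext j
        rw [Finsupp.add_apply, Finsupp.tsub_apply, Finsupp.single_apply, hone]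
        split_ifs with hj
        · rfl
        · rfl
      have h2 : monomial one (1 : κ) = X i * monomial (one - Finsupp.single i 1) 1 := by
        rw [X, monomial_mul, one_mul, e]
      rw [h2]
      ring
    have hzero : Λ (monomial g 1) = 0 := by
      rw [hsum, map_sum]
      refine Finset.sum_eq_zero fun i _ => ?_
      rw [(B i).as_sum, Finset.mul_sum, Finset.sum_mul, map_sum]
      refine Finset.sum_eq_zero fun b _ => ?_
      rw [monomial_mul]
      apply hex
      intro v hv
      rw [Finsupp.add_apply, Finsupp.tsub_apply, hone, Finsupp.single_eq_of_ne hv]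
      omega
    rw [hΛ, one_mul] at hzero
    simpa only [ψ', if_pos hg] using hzero

/-- **The Frobenius period functions are independent on the forms with poles of bounded order.** -/
theorem frob_independent [DecidableEq V] (W : V → ℕ) (m : ℕ) (hm : 1 ≤ m) (f : MvPolynomial V R)
    (hf : ∀ a ∈ f.support, ∑ v, W v * a v = m) (φ : R →+* κ) (N : ℕ)
    (hN : JacFrom W (map φ f) N) (p : ℕ) (hp : p.Prime) [CharP κ p]
    (c : Exps W m → κ)
    (h0 : ∀ k g, 1 ≤ k → k ≤ N + ∑ v, W v + 1 → ∑ v, W v * g v = k * m → (∀ v, 0 < g v) →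
      ∑ u, c u * frob φ p f (expo u) k g = 0) : ∀ w, c w = 0 := by
  classical
  intro w
  have h1 : ∑ u, c u * frob φ p f (expo u) p (p • expo w) = 0 :=
    reduction W m hm f hf φ N hN (fun k g => ∑ u, c u * frob φ p f (expo u) k g)
    (Stokes.sum Finset.univ _ (fun u => (frob_isPeriod φ p hp W m f
      (fun j : Empty => j.elim) (fun j : Empty => j.elim) (fun j => j.elim) (expo u)).stokes) c) h0
    p (p • expo w) hp.one_le (by
      have : ∑ v, W v * (p • expo w) v = p * ∑ v, W v * (w.1 v : ℕ) := by
        rw [Finset.mul_sum]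
        refine Finset.sum_congr rfl fun v _ => ?_
        simp only [Finsupp.smul_apply, smul_eq_mul, expo, Finsupp.equivFunOnFinite_symm_apply_apply]
        ring
      rw [this, w.2.2])
    (fun v => by
      simp only [Finsupp.smul_apply, smul_eq_mul, expo, Finsupp.equivFunOnFinite_symm_apply_apply]
      exact Nat.mul_pos hp.pos (w.2.1 v))
  rw [Finset.sum_eq_single w] at h1
  · rw [frob, if_pos le_rfl, Nat.sub_self, pow_zero, mul_one, coeff_monomial, if_pos rfl] at h1
    simp [fac] at h1
    exact h1
  · intro u _ hu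
    rw [frob, if_pos le_rfl, Nat.sub_self, pow_zero, mul_one, coeff_monomial, if_neg, mul_zero,
      mul_zero]
    intro h2
    apply hu
    apply Subtype.ext
    funext v
    have h3 := congrArg (fun s : V →₀ ℕ => s v) h2
    simp only [Finsupp.smul_apply, smul_eq_mul, expo, Finsupp.equivFunOnFinite_symm_apply_apply] at h3
    have h4 := Nat.eq_of_mul_eq_mul_left hp.pos h3
    exact Fin.ext h4.symm
  · intro h; exact absurd (Finset.mem_univ _) h

end Pool.Agent.H19.Ord
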