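import Mathlib

/-!
Moving a subspace away from another one with transvections and reflections, and Zariski closures of sets of matrices.
-/

set_option autoImplicit false

namespace Pool.Agent.H19.Ord

open MvPolynomial Matrix

/-- **The moving lemma.** -/
theorem move {Ω : Type*} [Field Ω] {n : ℕ} {I : Type*} [Fintype I] [DecidableEq I]
    (S : Submonoid (Matrix (Fin n) (Fin n) Ω))
    (hS : ∀ f x : Fin n → Ω, f ≠ 0 → x ≠ 0 → f ⬝ᵥ x = 0 → ∃ (t : Ω) (a b : Fin n → Ω), t ≠ 0 ∧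
      f ⬝ᵥ a ≠ 0 ∧ b ⬝ᵥ x ≠ 0 ∧ t • (1 + vecMulVec a b) ∈ S)
    (P : Matrix I (Fin n) Ω) (hP : ∀ z : I → Ω, z ᵥ* P = 0 → z = 0) (d : ℕ) :
    ∀ C : Matrix (Fin n) I Ω, (∀ y : I → Ω, C *ᵥ y = 0 → y = 0) →
      Module.finrank Ω (LinearMap.ker (P * C).mulVecLin) ≤ d → ∃ g ∈ S, (P * g * C).det ≠ 0 := by
  induction d with
  | zero =>
    intro C _ hd
    refine ⟨1, S.one_mem, ?_⟩
    rw [Matrix.mul_one]
    intro hdet
    rw [← exists_mulVec_eq_zero_iff] at hdet
    obtain ⟨v, hv, hv'⟩ := hdet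
    have h1 : LinearMap.ker (P * C).mulVecLin = ⊥ := by
      rw [← Submodule.finrank_eq_zero (R := Ω)]
      omega
    apply hv
    have h2 : v ∈ LinearMap.ker (P * C).mulVecLin := by
      rw [LinearMap.mem_ker, Matrix.mulVecLin_apply]
      exact hv'
    rw [h1] at h2
    simpa using h2
  | succ d ih =>
    intro C hC hd
    by_cases hdet : (P * C).det = 0
    · obtain ⟨y, hy, hy'⟩ := exists_mulVec_eq_zero_iff.2 hdet
      obtain ⟨z, hz, hz'⟩ := exists_vecMul_eq_zero_iff.2 hdet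
      have hx : C *ᵥ y ≠ 0 := fun h => hy (hC y h)
      have hf : z ᵥ* P ≠ 0 := fun h => hz (hP z h)
      have hfC : ∀ v, (z ᵥ* P) ⬝ᵥ (C *ᵥ v) = 0 := by
        intro v
        rw [Matrix.dotProduct_mulVec, Matrix.vecMul_vecMul, hz', zero_dotProduct]
      obtain ⟨t, a, b, ht, hfa, hbx, hg⟩ := hS (z ᵥ* P) (C *ᵥ y) hf hx (hfC y)
      set g := t • (1 + vecMulVec a b) with hgdef
      have hgC : ∀ v, (g * C) *ᵥ v = t • (C *ᵥ v + (b ⬝ᵥ (C *ᵥ v)) • a) := by
        intro v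
        rw [← Matrix.mulVec_mulVec, hgdef, Matrix.smul_mulVec, Matrix.add_mulVec, Matrix.one_mulVec,
          vecMulVec_mulVec]
        simp only [op_smul_eq_smul]
      have key : ∀ v, P *ᵥ ((g * C) *ᵥ v) = 0 → b ⬝ᵥ (C *ᵥ v) = 0 := by
        intro v hv
        rw [hgC, Matrix.mulVec_smul] at hv
        have h1 := (smul_eq_zero.1 hv).resolve_left ht
        have h2 : z ⬝ᵥ (P *ᵥ (C *ᵥ v + (b ⬝ᵥ (C *ᵥ v)) • a)) = 0 := by rw [h1, dotProduct_zero]
        rw [Matrix.dotProduct_mulVec, dotProduct_add, hfC, zero_add, dotProduct_smul,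
          smul_eq_mul] at h2
        exact (mul_eq_zero.1 h2).resolve_right hfa
      have hgC0 : ∀ v, (g * C) *ᵥ v = 0 → v = 0 := by
        intro v hv
        have h1 := key v (by rw [hv, Matrix.mulVec_zero])
        rw [hgC, h1, zero_smul, add_zero] at hv
        exact hC v ((smul_eq_zero.1 hv).resolve_left ht)
      have hlt : LinearMap.ker (P * (g * C)).mulVecLin < LinearMap.ker (P * C).mulVecLin := by
        rw [lt_iff_le_and_ne]
        constructor
        · intro v hv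
          rw [LinearMap.mem_ker, Matrix.mulVecLin_apply, ← Matrix.mulVec_mulVec] at hv ⊢
          have h1 := key v hv
          rw [hgC, h1, zero_smul, add_zero, Matrix.mulVec_smul] at hv
          exact (smul_eq_zero.1 hv).resolve_left ht
        · intro heq
          have h1 : y ∈ LinearMap.ker (P * C).mulVecLin := by
            rw [LinearMap.mem_ker, Matrix.mulVecLin_apply]
            exact hy'
          rw [← heq, LinearMap.mem_ker, Matrix.mulVecLin_apply, ← Matrix.mulVec_mulVec] at h1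
          exact hbx (key y h1)
      have h3 := Submodule.finrank_lt_finrank_of_lt hlt
      obtain ⟨g₂, hg₂, hdet₂⟩ := ih (g * C) hgC0 (by omega)
      refine ⟨g₂ * g, S.mul_mem hg₂ hg, ?_⟩
      have e : P * (g₂ * g) * C = P * g₂ * (g * C) := by simp only [Matrix.mul_assoc]
      rw [e]
      exact hdet₂
    · exact ⟨1, S.one_mem, by rwa [Matrix.mul_one]⟩

section zar

variable {Ω : Type*} [Field Ω] {n : ℕ}

/-- the value of a polynomial at a matrix -/
noncomputable def ev (g : Matrix (Fin n) (Fin n) Ω) (Q : MvPolynomial (Fin n × Fin n) Ω) : Ω :=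
  eval (fun x => g x.1 x.2) Q

/-- the Zariski closure of a set of matrices -/
def zcl (T : Set (Matrix (Fin n) (Fin n) Ω)) : Set (Matrix (Fin n) (Fin n) Ω) :=
  {h | ∀ Q : MvPolynomial (Fin n × Fin n) Ω, (∀ g ∈ T, ev g Q = 0) → ev h Q = 0}

lemma subset_zcl (T : Set (Matrix (Fin n) (Fin n) Ω)) : T ⊆ zcl T := fun g hg _ hQ => hQ g hg

/-- the value at a matrix of polynomials -/
noncomputable def mev {τ : Type*} (θ : τ → Ω) (G : Matrix (Fin n) (Fin n) (MvPolynomial τ Ω)) :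
    Matrix (Fin n) (Fin n) Ω := G.map (eval θ)

/-- the pull-back -/
noncomputable def pull {τ : Type*} (G : Matrix (Fin n) (Fin n) (MvPolynomial τ Ω))
    (Q : MvPolynomial (Fin n × Fin n) Ω) : MvPolynomial τ Ω := bind₁ (fun x => G x.1 x.2) Q

lemma eval_pull {τ : Type*} (θ : τ → Ω) (G : Matrix (Fin n) (Fin n) (MvPolynomial τ Ω))
    (Q : MvPolynomial (Fin n × Fin n) Ω) : eval θ (pull G Q) = ev (mev θ G) Q := by
  simp only [pull, ev, eval, eval₂Hom_bind₁]
  rfl

lemma zcl_mul (T : Set (Matrix (Fin n) (Fin n) Ω)) (hT : ∀ a ∈ T, ∀ b ∈ T, a * b ∈ T) :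
    ∀ a ∈ zcl T, ∀ b ∈ zcl T, a * b ∈ zcl T := by
  have hl : ∀ (a : Matrix (Fin n) (Fin n) Ω) (Q : MvPolynomial (Fin n × Fin n) Ω),
      ∃ Q' : MvPolynomial (Fin n × Fin n) Ω, ∀ b, ev b Q' = ev (a * b) Q := by
    intro a Q
    refine ⟨pull (Matrix.of fun i j => ∑ l, C (a i l) * X (l, j)) Q, fun b => ?_⟩
    rw [ev, eval_pull]
    congr 1
    ext i j
    simp [mev, Matrix.mul_apply]
  have hr : ∀ (b : Matrix (Fin n) (Fin n) Ω) (Q : MvPolynomial (Fin n × Fin n) Ω),
      ∃ Q' : MvPolynomial (Fin n × Fin n) Ω, ∀ a, ev a Q' = ev (a * b) Q := by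
    intro b Q
    refine ⟨pull (Matrix.of fun i j => ∑ l, X (i, l) * C (b l j)) Q, fun a => ?_⟩
    rw [ev, eval_pull]
    congr 1
    ext i j
    simp [mev, Matrix.mul_apply]
  have h1 : ∀ a ∈ T, ∀ b ∈ zcl T, a * b ∈ zcl T := by
    intro a ha b hb Q hQ
    obtain ⟨Q', hQ'⟩ := hl a Q
    rw [← hQ']
    refine hb Q' fun g hg => ?_
    rw [hQ']
    exact hQ _ (hT a ha g hg)
  intro a ha b hb Q hQ
  obtain ⟨Q', hQ'⟩ := hr b Q
  rw [← hQ']
  refine ha Q' fun g hg => ?_
  rw [hQ']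
  exact h1 g hg b hb Q hQ

/-- images of polynomial maps in a Zariski closure -/
lemma poly_points {E : Type*} [Field E] [CharZero E] (ι : E →+* Ω) {τ : Type*}
    (T : Set (Matrix (Fin n) (Fin n) Ω)) (G : Matrix (Fin n) (Fin n) (MvPolynomial τ Ω))
    (q : MvPolynomial τ Ω)
    (h : ∀ θ : τ → E, eval (fun x => ι (θ x)) q ≠ 0 → mev (fun x => ι (θ x)) G ∈ T)
    (θ : τ → Ω) (hθ : eval θ q ≠ 0) : mev θ G ∈ zcl T := by
  intro Q hQ
  have h1 : pull G Q * q = 0 := by
    refine funext_set (fun _ => Set.range ι)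
      (fun _ => Set.infinite_range_of_injective ι.injective) ?_
    intro x hx
    have h2 : ∀ i, ∃ y, ι y = x i := fun i => hx i (Set.mem_univ i)
    choose y hy using h2
    have h3 : x = fun i => ι (y i) := _root_.funext fun i => (hy i).symm
    rw [map_mul, map_zero, eval_pull, h3]
    by_cases hq : eval (fun i => ι (y i)) q = 0
    · rw [hq, mul_zero]
    · rw [hQ _ (h y hq), zero_mul]
  have h2 := congrArg (eval θ) h1
  rw [map_mul, map_zero, eval_pull] at h2
  exact (mul_eq_zero.1 h2).resolve_right hθ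

/-- the determinant as a polynomial -/
lemma exists_det_poly {I : Type*} [Fintype I] [DecidableEq I] (P : Matrix I (Fin n) Ω)
    (C' : Matrix (Fin n) I Ω) :
    ∃ Q : MvPolynomial (Fin n × Fin n) Ω, ∀ g, ev g Q = (P * g * C').det := by
  refine ⟨(Matrix.of fun i j => ∑ b, (∑ a, C (P i a) * X (a, b)) * C (C' b j)).det, fun g => ?_⟩
  rw [ev, RingHom.map_det]
  congr 1
  ext i j
  simp [Matrix.mul_apply]

end zar

end Pool.Agent.H19.Ord
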