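import Mathlib
import Pool.Agent.H19.Ord.Zar
import Pool.Agent.H19.Ord.BigDefs

/-!
Big groups move subspaces away from each other.
-/

set_option autoImplicit false

namespace Pool.Agent.H19.Ord

universe u

open MvPolynomial Matrix

section

variable {E Ω : Type u} [Field E] [CharZero E] [Field Ω] (ι : E →+* Ω) {n : ℕ}

/-- polynomials over a larger field -/
lemma InClosure.extend {T S : Set (Matrix (Fin n) (Fin n) E)} (h : InClosure T S)
    (Q : MvPolynomial (Fin n × Fin n) Ω) (hQ : ∀ g ∈ T, ev (g.map ι) Q = 0) :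
    ∀ g ∈ S, ev (g.map ι) Q = 0 := by
  intro g hg
  let : Algebra E Ω := ι.toAlgebra
  have hsm : ∀ (x : E) (y : Ω), x • y = ι x * y := fun _ _ => rfl
  rw [← Module.forall_dual_apply_eq_zero_iff E]
  intro l
  let Ql : MvPolynomial (Fin n × Fin n) E := ∑ m ∈ Q.support, monomial m (l (coeff m Q))
  have key : ∀ g' : Matrix (Fin n) (Fin n) E,
      l (ev (g'.map ι) Q) = eval (fun x => g' x.1 x.2) Ql := by
    intro g'
    rw [ev, eval_eq', map_sum]
    simp only [Ql, map_sum, eval_monomial]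
    refine Finset.sum_congr rfl fun m _ => ?_
    have h1 : coeff m Q * ∏ i, (g'.map ι) i.1 i.2 ^ m i =
        (∏ i, g' i.1 i.2 ^ m i) • coeff m Q := by
      rw [hsm, map_prod, mul_comm]
      simp only [Matrix.map_apply, map_pow]
    rw [h1, map_smul, smul_eq_mul, mul_comm]
    congr 1
    rw [Finsupp.prod_fintype]
    intro i
    simp
  rw [key]
  apply h Ql _ g hg
  intro g' hg'
  rw [← key, hQ g' hg', map_zero]

variable {I : Type} [Fintype I] [DecidableEq I] (P : Matrix I (Fin n) Ω)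
  (hP : ∀ z : I → Ω, z ᵥ* P = 0 → z = 0) (C' : Matrix (Fin n) I Ω)
  (hC : ∀ y : I → Ω, C' *ᵥ y = 0 → y = 0)

/-- scalar multiples of the matrices of a set -/
def scal (S : Set (Matrix (Fin n) (Fin n) E)) : Set (Matrix (Fin n) (Fin n) Ω) :=
  {h | ∃ (c : Ω) (g : Matrix (Fin n) (Fin n) E), g ∈ S ∧ h = c • g.map ι}

lemma scal_mul {S : Set (Matrix (Fin n) (Fin n) E)} (hS : ∀ a ∈ S, ∀ b ∈ S, a * b ∈ S) :
    ∀ a ∈ scal ι S, ∀ b ∈ scal ι S, a * b ∈ scal ι S := by
  rintro _ ⟨c, g, hg, rfl⟩ _ ⟨c', g', hg', rfl⟩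
  refine ⟨c * c', g * g', hS g hg g' hg', ?_⟩
  rw [Matrix.smul_mul, Matrix.mul_smul, smul_smul, Matrix.map_mul]

/-- the Zariski closure as a monoid -/
def zclMonoid {S : Set (Matrix (Fin n) (Fin n) E)} (h1 : 1 ∈ S)
    (hS : ∀ a ∈ S, ∀ b ∈ S, a * b ∈ S) : Submonoid (Matrix (Fin n) (Fin n) Ω) where
  carrier := zcl (scal ι S)
  mul_mem' := fun {a b} ha hb => zcl_mul _ (scal_mul ι hS) a ha b hb
  one_mem' := subset_zcl _ ⟨1, 1, h1, by simp⟩

lemma mem_zclMonoid {S : Set (Matrix (Fin n) (Fin n) E)} (h1 : 1 ∈ S)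
    (hS : ∀ a ∈ S, ∀ b ∈ S, a * b ∈ S) (g : Matrix (Fin n) (Fin n) Ω) :
    g ∈ zclMonoid ι h1 hS ↔ g ∈ zcl (scal ι S) := Iff.rfl

lemma det_zero {T S : Set (Matrix (Fin n) (Fin n) E)} (h : InClosure T S) [Nonempty I]
    (hT : ∀ g ∈ T, (P * g.map ι * C').det = 0) : ∀ g ∈ zcl (scal ι S), (P * g * C').det = 0 := by
  intro g hg
  obtain ⟨Q, hQ⟩ := exists_det_poly P C'
  rw [← hQ]
  apply hg
  rintro _ ⟨c, g', hg', rfl⟩
  have h1 : (P * g'.map ι * C').det = 0 := by
    rw [← hQ]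
    exact h.extend ι Q (fun g'' hg'' => by rw [hQ]; exact hT g'' hg'') g' hg'
  rw [hQ, Matrix.mul_smul, Matrix.smul_mul, Matrix.det_smul, h1, mul_zero]

include hP hC in
/-- the criterion -/
lemma not_all_zero {T S : Set (Matrix (Fin n) (Fin n) E)} (h1 : 1 ∈ S)
    (hS : ∀ a ∈ S, ∀ b ∈ S, a * b ∈ S) (h : InClosure T S) [Nonempty I]
    (hmov : ∀ f x : Fin n → Ω, f ≠ 0 → x ≠ 0 → f ⬝ᵥ x = 0 → ∃ (t : Ω) (a b : Fin n → Ω), t ≠ 0 ∧
      f ⬝ᵥ a ≠ 0 ∧ b ⬝ᵥ x ≠ 0 ∧ t • (1 + vecMulVec a b) ∈ zcl (scal ι S))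
    (hT : ∀ g ∈ T, (P * g.map ι * C').det = 0) : False := by
  obtain ⟨g, hg, hdet⟩ := move (zclMonoid ι h1 hS) hmov P hP _ C' hC le_rfl
  exact hdet (det_zero ι P C' h hT g hg)

/-- a nonzero linear function -/
lemma exists_dot {f : Fin n → Ω} (hf : f ≠ 0) : ∃ a, f ⬝ᵥ a ≠ 0 := by
  by_contra hcon
  push Not at hcon
  exact hf (dotProduct_eq_zero f hcon)

/-- a polynomial for a linear function -/
noncomputable def lin (f : Fin n → Ω) : MvPolynomial (Fin n) Ω := ∑ i, C (f i) * X i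

lemma eval_lin (f a : Fin n → Ω) : eval a (lin f) = f ⬝ᵥ a := by
  simp [lin, dotProduct]

lemma lin_ne {f : Fin n → Ω} (hf : f ≠ 0) : lin f ≠ 0 := by
  obtain ⟨a, ha⟩ := exists_dot hf
  intro h
  rw [← eval_lin, h, map_zero] at ha
  exact ha rfl

/-- a point where finitely many polynomials do not vanish -/
lemma exists_ne {τ : Type} [Infinite Ω] {Q : MvPolynomial τ Ω} (hQ : Q ≠ 0) :
    ∃ a, eval a Q ≠ 0 := by
  by_contra hcon
  push Not at hcon
  apply hQ
  apply MvPolynomial.funext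
  intro x
  rw [hcon, map_zero]

include hP hC in
/-- the special linear group -/
theorem big_sl {T : Set (Matrix (Fin n) (Fin n) E)} [Nonempty I]
    (h : InClosure T {g | g.det = 1})
    (hT : ∀ g ∈ T, (P * g.map ι * C').det = 0) : False := by
  have hΩ : CharZero Ω := charZero_of_injective_ringHom ι.injective
  refine not_all_zero ι P hP C' hC (S := {g | g.det = 1}) (by simp) ?_ h ?_ hT
  · intro a ha b hb
    simp only [Set.mem_ofPred_eq] at ha hb ⊢
    rw [det_mul, ha, hb, mul_one]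
  · intro f x hf hx hfx
    obtain ⟨a, ha⟩ := exists_dot hf
    -- `a` and `x` are independent
    obtain ⟨i, j, hij⟩ : ∃ i j, a i * x j - a j * x i ≠ 0 := by
      by_contra hcon
      push Not at hcon
      obtain ⟨j, hj⟩ := Function.ne_iff.1 hx
      simp only [Pi.zero_apply] at hj
      apply ha
      have h1 : ∀ i, a i = (a j / x j) * x i := by
        intro i
        have h2 := sub_eq_zero.1 (hcon i j)
        field_simp
        linear_combination h2
      have h2 : a = (a j / x j) • x := by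
        funext i
        rw [Pi.smul_apply, smul_eq_mul]
        exact h1 i
      rw [h2, dotProduct_smul, hfx, smul_zero]
    have hne : i ≠ j := by
      rintro rfl
      exact hij (by ring)
    let b : Fin n → Ω := Pi.single j (a i) - Pi.single i (a j)
    refine ⟨1, a, b, one_ne_zero, ha, ?_, ?_⟩
    · simp only [b, sub_dotProduct, single_dotProduct]
      exact hij
    · rw [one_smul]
      let G : Matrix (Fin n) (Fin n) (MvPolynomial (Fin n) Ω) :=
        1 + vecMulVec (fun l => X l) (Pi.single j (X i) - Pi.single i (X j))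
      have hG : ∀ θ : Fin n → Ω, mev θ G =
          1 + vecMulVec θ (Pi.single j (θ i) - Pi.single i (θ j)) := by
        intro θ
        ext k l
        simp only [mev, G, Matrix.map_apply, Matrix.add_apply, vecMulVec_apply, map_add, map_mul,
          Pi.sub_apply, map_sub, eval_X, Matrix.one_apply, Pi.single_apply]
        congr 2
        · split_ifs <;> simp
        · split_ifs <;> simp
      have hmem : mev a G ∈ zcl (scal ι {g : Matrix (Fin n) (Fin n) E | g.det = 1}) := by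
        refine poly_points ι _ G 1 ?_ a (by simp)
        intro θ _
        refine ⟨1, 1 + vecMulVec θ (Pi.single j (θ i) - Pi.single i (θ j)), ?_, ?_⟩
        · simp only [Set.mem_ofPred_eq]
          have h1 := det_one_add_replicateCol_mul_replicateRow (ι := Unit) θ
            (Pi.single j (θ i) - Pi.single i (θ j))
          rw [← vecMulVec_eq] at h1
          rw [h1]
          simp only [sub_dotProduct, single_dotProduct]
          ring
        · rw [one_smul, hG]
          ext k l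
          simp only [Matrix.map_apply, Matrix.add_apply, vecMulVec_apply, map_add, map_mul,
            Pi.sub_apply, map_sub, Matrix.one_apply, Pi.single_apply]
          congr 2
          · split_ifs <;> simp
          · split_ifs <;> simp
      rw [hG] at hmem
      exact hmem

/-- the matrix `1 + a b` with `b = a A` preserves an alternating form -/
lemma transvection_mem {K : Type*} [Field K] [CharZero K] (A : Matrix (Fin n) (Fin n) K)
    (hA : A.transpose = -A) (a : Fin n → K) :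
    (1 + vecMulVec a (a ᵥ* A)).transpose * A * (1 + vecMulVec a (a ᵥ* A)) = A := by
  have h0 : (a ᵥ* A) ⬝ᵥ a = 0 := by
    have h1 : (a ᵥ* A) ⬝ᵥ a = - ((a ᵥ* A) ⬝ᵥ a) := by
      conv_lhs => rw [dotProduct_comm, ← Matrix.mulVec_transpose, hA, Matrix.neg_mulVec,
        dotProduct_neg, Matrix.dotProduct_mulVec]
    have h2 : (2 : K) * ((a ᵥ* A) ⬝ᵥ a) = 0 := by linear_combination h1
    exact (mul_eq_zero.1 h2).resolve_left two_ne_zero
  have hAa : A *ᵥ a = -(a ᵥ* A) := by
    rw [← Matrix.vecMul_transpose, hA, Matrix.vecMul_neg]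
  rw [Matrix.transpose_add, Matrix.transpose_one, transpose_vecMulVec, Matrix.add_mul, Matrix.one_mul,
    Matrix.add_mul, Matrix.mul_add, Matrix.mul_add, Matrix.mul_one, Matrix.mul_one,
    Matrix.mul_vecMulVec, Matrix.vecMulVec_mul, Matrix.vecMulVec_mul_vecMulVec, hAa, h0]
  ext i j
  simp only [Matrix.add_apply, vecMulVec_apply, Pi.neg_apply, zero_smul, Matrix.smul_apply, smul_eq_mul]
  simp

/-- the reflection preserves a symmetric form -/
lemma reflection_mem {K : Type*} [Field K] (A : Matrix (Fin n) (Fin n) K)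
    (hA : A.transpose = A) (a : Fin n → K) (hq : (a ᵥ* A) ⬝ᵥ a ≠ 0) :
    (1 - (2 / ((a ᵥ* A) ⬝ᵥ a)) • vecMulVec a (a ᵥ* A)).transpose * A *
      (1 - (2 / ((a ᵥ* A) ⬝ᵥ a)) • vecMulVec a (a ᵥ* A)) = A := by
  have hAa : A *ᵥ a = a ᵥ* A := by
    rw [← Matrix.vecMul_transpose, hA]
  set q := (a ᵥ* A) ⬝ᵥ a with hqdef
  rw [Matrix.transpose_sub, Matrix.transpose_one, Matrix.transpose_smul, transpose_vecMulVec,
    Matrix.sub_mul, Matrix.one_mul, Matrix.sub_mul, Matrix.mul_sub, Matrix.mul_sub, Matrix.mul_one,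
    Matrix.mul_one, Matrix.smul_mul, Matrix.smul_mul, Matrix.mul_smul, Matrix.mul_smul,
    Matrix.mul_vecMulVec, Matrix.vecMulVec_mul, Matrix.vecMulVec_mul_vecMulVec, hAa, ← hqdef]
  ext i j
  simp only [Matrix.sub_apply, vecMulVec_apply, Matrix.smul_apply, smul_eq_mul, Pi.smul_apply]
  field_simp
  ring

lemma exists_quad {K : Type*} [Field K] [CharZero K] (A : Matrix (Fin n) (Fin n) K)
    (hA : A.transpose = A) (S : Submodule K (Fin n → K))
    (h : ∀ a ∈ S, (a ᵥ* A) ⬝ᵥ a = 0) : ∀ a ∈ S, ∀ b ∈ S, (a ᵥ* A) ⬝ᵥ b = 0 := by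
  intro a ha b hb
  have h1 := h (a + b) (S.add_mem ha hb)
  have h2 : (b ᵥ* A) ⬝ᵥ a = (a ᵥ* A) ⬝ᵥ b := by
    rw [← Matrix.mulVec_transpose, hA, dotProduct_comm, Matrix.dotProduct_mulVec]
  rw [Matrix.add_vecMul, add_dotProduct, dotProduct_add, dotProduct_add, h a ha, h b hb, h2] at h1
  have h3 : (2 : K) * ((a ᵥ* A) ⬝ᵥ b) = 0 := by linear_combination h1
  exact (mul_eq_zero.1 h3).resolve_left two_ne_zero

include hP hC in
/-- the symplectic group -/
theorem big_sp {T : Set (Matrix (Fin n) (Fin n) E)} [Nonempty I]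
    (A : Matrix (Fin n) (Fin n) E) (hA : A.transpose = -A) (hdet : A.det ≠ 0)
    (h : InClosure T {g | g.transpose * A * g = A})
    (hT : ∀ g ∈ T, (P * g.map ι * C').det = 0) : False := by
  have hΩ : CharZero Ω := charZero_of_injective_ringHom ι.injective
  have hdet' : (A.map ι).det ≠ 0 := by
    have : (A.map ι).det = ι A.det := by rw [RingHom.map_det, RingHom.mapMatrix_apply]
    rw [this]
    exact (map_ne_zero ι).2 hdet
  refine not_all_zero ι P hP C' hC (S := {g | g.transpose * A * g = A}) (by simp) ?_ h ?_ hT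
  · intro a ha b hb
    simp only [Set.mem_ofPred_eq] at ha hb ⊢
    rw [Matrix.transpose_mul]
    calc b.transpose * a.transpose * A * (a * b) = b.transpose * (a.transpose * A * a) * b := by
          simp only [Matrix.mul_assoc]
      _ = A := by rw [ha, hb]
  · intro f x hf hx _
    have hAx : (A.map ι) *ᵥ x ≠ 0 := fun h0 =>
      hdet' (exists_mulVec_eq_zero_iff.1 ⟨x, hx, h0⟩)
    obtain ⟨a, ha⟩ := exists_ne (mul_ne_zero (lin_ne hf) (lin_ne hAx))
    rw [map_mul, eval_lin, eval_lin] at ha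
    obtain ⟨ha1, ha2⟩ := mul_ne_zero_iff.1 ha
    refine ⟨1, a, a ᵥ* (A.map ι), one_ne_zero, ha1, ?_, ?_⟩
    · rw [← Matrix.dotProduct_mulVec, dotProduct_comm]
      exact ha2
    · rw [one_smul]
      let G : Matrix (Fin n) (Fin n) (MvPolynomial (Fin n) Ω) :=
        1 + vecMulVec (fun l => X l) ((fun l => X l) ᵥ* (A.map fun y => C (ι y)))
      have hG : ∀ θ : Fin n → Ω, mev θ G = 1 + vecMulVec θ (θ ᵥ* (A.map ι)) := by
        intro θ
        ext k l
        simp only [mev, G, Matrix.map_apply, Matrix.add_apply, vecMulVec_apply, map_add, map_mul,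
          eval_X, Matrix.one_apply, vecMul, dotProduct, map_sum, eval_C]
        congr 1
        split_ifs <;> simp
      have hmem : mev a G ∈ zcl (scal ι {g : Matrix (Fin n) (Fin n) E | g.transpose * A * g = A}) := by
        refine poly_points ι _ G 1 ?_ a (by simp)
        intro θ _
        refine ⟨1, 1 + vecMulVec θ (θ ᵥ* A), ?_, ?_⟩
        · exact transvection_mem A hA θ
        · rw [one_smul, hG]
          ext k l
          simp only [Matrix.map_apply, Matrix.add_apply, vecMulVec_apply, map_add, map_mul,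
            Matrix.one_apply, vecMul, dotProduct, map_sum]
          congr 1
          split_ifs <;> simp
      rw [hG] at hmem
      exact hmem

/-- the polynomial matrix of the reflections -/
noncomputable def rG (A : Matrix (Fin n) (Fin n) E) {τ : Type} (v : Fin n → τ) :
    Matrix (Fin n) (Fin n) (MvPolynomial τ Ω) :=
  (((fun l => X (v l)) ᵥ* (A.map fun y => C (ι y))) ⬝ᵥ fun l => X (v l)) • 1 -
    (2 : MvPolynomial τ Ω) • vecMulVec (fun l => X (v l)) ((fun l => X (v l)) ᵥ* (A.map fun y => C (ι y)))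

/-- the quadratic form as a polynomial -/
noncomputable def rq (A : Matrix (Fin n) (Fin n) E) {τ : Type} (v : Fin n → τ) : MvPolynomial τ Ω :=
  ((fun l => X (v l)) ᵥ* (A.map fun y => C (ι y))) ⬝ᵥ fun l => X (v l)

/-- the multiple of a reflection -/
noncomputable def rM (A : Matrix (Fin n) (Fin n) Ω) (a : Fin n → Ω) : Matrix (Fin n) (Fin n) Ω :=
  ((a ᵥ* A) ⬝ᵥ a) • 1 - (2 : Ω) • vecMulVec a (a ᵥ* A)

lemma eval_rq (A : Matrix (Fin n) (Fin n) E) {τ : Type} (v : Fin n → τ) (θ : τ → Ω) :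
    eval θ (rq ι A v) = ((fun l => θ (v l)) ᵥ* (A.map ι)) ⬝ᵥ fun l => θ (v l) := by
  simp only [rq, dotProduct, vecMul, map_sum, map_mul, eval_X, Matrix.map_apply, eval_C]

lemma mev_rG (A : Matrix (Fin n) (Fin n) E) {τ : Type} (v : Fin n → τ) (θ : τ → Ω) :
    mev θ (rG ι A v) = rM (A.map ι) fun l => θ (v l) := by
  ext k l
  simp only [mev, rG, rM, Matrix.map_apply, Matrix.sub_apply, Matrix.smul_apply, vecMulVec_apply,
    map_sub, smul_eq_mul, map_mul, eval_X, vecMul, dotProduct, map_sum, eval_C, Matrix.one_apply]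
  congr 1
  · congr 1
    split_ifs <;> simp
  · congr 1
    simp

/-- scalar multiple of an orthogonal matrix -/
lemma rM_eq (A : Matrix (Fin n) (Fin n) E) (θ : Fin n → E) (hq : (θ ᵥ* A) ⬝ᵥ θ ≠ 0) :
    rM (A.map ι) (fun l => ι (θ l)) =
      (ι ((θ ᵥ* A) ⬝ᵥ θ)) • (1 - (2 / ((θ ᵥ* A) ⬝ᵥ θ)) • vecMulVec θ (θ ᵥ* A)).map ι := by
  have h1 : ι ((θ ᵥ* A) ⬝ᵥ θ) ≠ 0 := (map_ne_zero ι).2 hq
  have h2 : ((fun l => ι (θ l)) ᵥ* (A.map ι)) = fun l => ι ((θ ᵥ* A) l) := by
    funext l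
    simp [vecMul, dotProduct]
  have h3 : ((fun l => ι ((θ ᵥ* A) l)) ⬝ᵥ fun l => ι (θ l)) = ι ((θ ᵥ* A) ⬝ᵥ θ) := by
    simp [dotProduct]
  rw [rM, h2, h3]
  ext k l
  simp only [Matrix.sub_apply, Matrix.smul_apply, vecMulVec_apply, Matrix.map_apply, map_sub,
    smul_eq_mul, map_mul, map_div₀, map_ofNat, Matrix.one_apply]
  rw [mul_sub]
  congr 1
  · split_ifs <;> simp
  · field_simp

lemma eval_pt (A : Matrix (Fin n) (Fin n) E) (θ : Fin n → E) :
    ((fun l => ι (θ l)) ᵥ* (A.map ι)) ⬝ᵥ (fun l => ι (θ l)) = ι ((θ ᵥ* A) ⬝ᵥ θ) := by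
  simp [dotProduct, vecMul, Finset.sum_mul]

lemma rM_shape (A : Matrix (Fin n) (Fin n) Ω) (a : Fin n → Ω) (hq : (a ᵥ* A) ⬝ᵥ a ≠ 0) :
    rM A a = ((a ᵥ* A) ⬝ᵥ a) • (1 + vecMulVec a ((-(2 / ((a ᵥ* A) ⬝ᵥ a))) • (a ᵥ* A))) := by
  ext k l
  simp only [rM, Matrix.sub_apply, Matrix.add_apply, Matrix.smul_apply, vecMulVec_apply,
    smul_eq_mul, Pi.smul_apply]
  field_simp
  ring

/-- vectors for the moves with reflections -/
lemma exists_refl (A : Matrix (Fin n) (Fin n) E) (hA : A.transpose = A) (hdet : A.det ≠ 0)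
    (f x : Fin n → Ω) (hf : f ≠ 0) (hx : x ≠ 0) :
    ∃ a, ((a ᵥ* (A.map ι)) ⬝ᵥ a) ≠ 0 ∧ f ⬝ᵥ a ≠ 0 ∧ (a ᵥ* (A.map ι)) ⬝ᵥ x ≠ 0 := by
  have hΩ : CharZero Ω := charZero_of_injective_ringHom ι.injective
  have hdet' : (A.map ι).det ≠ 0 := by
    have : (A.map ι).det = ι A.det := by rw [RingHom.map_det, RingHom.mapMatrix_apply]
    rw [this]
    exact (map_ne_zero ι).2 hdet
  have hA' : (A.map ι).transpose = A.map ι := by rw [← Matrix.transpose_map, hA]
  have hAx : (A.map ι) *ᵥ x ≠ 0 := fun h0 => hdet' (exists_mulVec_eq_zero_iff.1 ⟨x, hx, h0⟩)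
  have hq : rq (Ω := Ω) ι A (id : Fin n → Fin n) ≠ 0 := by
    intro h0
    have h1 : ∀ a ∈ (⊤ : Submodule Ω (Fin n → Ω)), (a ᵥ* (A.map ι)) ⬝ᵥ a = 0 := by
      intro a _
      have := eval_rq ι A (id : Fin n → Fin n) a
      rw [h0, map_zero] at this
      exact this.symm
    have h2 := exists_quad _ hA' ⊤ h1
    apply hAx
    apply dotProduct_eq_zero
    intro b
    rw [dotProduct_comm, Matrix.dotProduct_mulVec]
    exact h2 b trivial x trivial
  obtain ⟨a, ha⟩ := exists_ne (mul_ne_zero hq (mul_ne_zero (lin_ne hf) (lin_ne hAx)))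
  rw [map_mul, map_mul, eval_lin, eval_lin, eval_rq] at ha
  obtain ⟨ha0, ha'⟩ := mul_ne_zero_iff.1 ha
  obtain ⟨ha1, ha2⟩ := mul_ne_zero_iff.1 ha'
  refine ⟨a, ha0, ha1, ?_⟩
  rw [← Matrix.dotProduct_mulVec, dotProduct_comm]
  exact ha2

include hP hC in
/-- the orthogonal group -/
theorem big_o {T : Set (Matrix (Fin n) (Fin n) E)} [Nonempty I]
    (A : Matrix (Fin n) (Fin n) E) (hA : A.transpose = A) (hdet : A.det ≠ 0)
    (h : InClosure T {g | g.transpose * A * g = A})
    (hT : ∀ g ∈ T, (P * g.map ι * C').det = 0) : False := by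
  refine not_all_zero ι P hP C' hC (S := {g | g.transpose * A * g = A}) (by simp) ?_ h ?_ hT
  · intro a ha b hb
    simp only [Set.mem_ofPred_eq] at ha hb ⊢
    rw [Matrix.transpose_mul]
    calc b.transpose * a.transpose * A * (a * b) = b.transpose * (a.transpose * A * a) * b := by
          simp only [Matrix.mul_assoc]
      _ = A := by rw [ha, hb]
  · intro f x hf hx _
    obtain ⟨a, ha0, ha1, ha2⟩ := exists_refl ι A hA hdet f x hf hx
    refine ⟨_, a, (-(2 / ((a ᵥ* A.map ι) ⬝ᵥ a))) • (a ᵥ* A.map ι), ha0, ha1, ?_, ?_⟩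
    · have hΩ : CharZero Ω := charZero_of_injective_ringHom ι.injective
      rw [smul_dotProduct, smul_eq_mul]
      exact mul_ne_zero (neg_ne_zero.2 (div_ne_zero two_ne_zero ha0)) ha2
    · rw [← rM_shape _ _ ha0]
      have h1 : rM (A.map ι) a = mev a (rG (Ω := Ω) ι A (id : Fin n → Fin n)) := by
        rw [mev_rG]
        rfl
      rw [h1]
      refine poly_points ι _ _ (rq ι A (id : Fin n → Fin n)) ?_ a (by rw [eval_rq]; exact ha0)
      intro θ hθ
      rw [eval_rq] at hθ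
      have h2 : (θ ᵥ* A) ⬝ᵥ θ ≠ 0 := by
        intro h3
        apply hθ
        have := eval_pt ι A θ
        rw [h3, map_zero] at this
        exact this
      refine ⟨ι ((θ ᵥ* A) ⬝ᵥ θ), _, reflection_mem A hA θ h2, ?_⟩
      rw [mev_rG]
      exact rM_eq ι A θ h2

/-- the determinant of a reflection -/
lemma det_reflection {K : Type*} [Field K] (A : Matrix (Fin n) (Fin n) K) (a : Fin n → K)
    (hq : (a ᵥ* A) ⬝ᵥ a ≠ 0) :
    (1 - (2 / ((a ᵥ* A) ⬝ᵥ a)) • vecMulVec a (a ᵥ* A)).det = -1 := by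
  have h1 := det_one_add_replicateCol_mul_replicateRow (ι := Unit) a
    ((-(2 / ((a ᵥ* A) ⬝ᵥ a))) • (a ᵥ* A))
  rw [← vecMulVec_eq] at h1
  have h2 : 1 - (2 / ((a ᵥ* A) ⬝ᵥ a)) • vecMulVec a (a ᵥ* A) =
      1 + vecMulVec a ((-(2 / ((a ᵥ* A) ⬝ᵥ a))) • (a ᵥ* A)) := by
    ext k l
    simp only [Matrix.sub_apply, Matrix.add_apply, Matrix.smul_apply, vecMulVec_apply, smul_eq_mul,
      Pi.smul_apply]
    ring
  rw [h2, h1, smul_dotProduct, smul_eq_mul]
  field_simp
  ring

include hC in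
/-- a reflection which fixes the columns -/
lemma exists_fix (A : Matrix (Fin n) (Fin n) Ω) (hA : A.transpose = A) (hdet : A.det ≠ 0)
    [CharZero Ω] (hr : 2 * Fintype.card I < n) :
    ∃ a : Fin n → Ω, (a ᵥ* A) ⬝ᵥ a ≠ 0 ∧ (a ᵥ* A) ᵥ* C' = 0 := by
  by_contra hcon
  push Not at hcon
  let L : (Fin n → Ω) →ₗ[Ω] (I → Ω) := (C'.vecMulLinear).comp A.vecMulLinear
  have hL : ∀ a, L a = (a ᵥ* A) ᵥ* C' := fun a => rfl
  let S : Submodule Ω (Fin n → Ω) := LinearMap.ker L
  have hS : ∀ a ∈ S, (a ᵥ* A) ⬝ᵥ a = 0 := by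
    intro a ha
    by_contra h0
    exact hcon a h0 ha
  have hiso := exists_quad A hA S hS
  have hB : (Matrix.toBilin' A).Nondegenerate := (Matrix.nondegenerate_of_det_ne_zero hdet).toBilin'
  have hle : S ≤ (Matrix.toBilin' A).orthogonal S := by
    intro a ha
    rw [LinearMap.BilinForm.mem_orthogonal_iff]
    intro b hb
    rw [toBilin'_apply', Matrix.dotProduct_mulVec]
    exact hiso b hb a ha
  have h1 := Submodule.finrank_mono hle
  rw [LinearMap.BilinForm.finrank_orthogonal hB] at h1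
  have h2 := LinearMap.finrank_range_add_finrank_ker L
  have h3 : Module.finrank Ω (LinearMap.range L) ≤ Fintype.card I := by
    have := Submodule.finrank_le (LinearMap.range L)
    rwa [Module.finrank_fintype_fun_eq_card] at this
  rw [Module.finrank_fintype_fun_eq_card, Fintype.card_fin] at h1 h2
  change Module.finrank Ω (LinearMap.range L) + Module.finrank Ω S = n at h2
  omega

include hP hC in
/-- the special orthogonal group -/
theorem big_so {T : Set (Matrix (Fin n) (Fin n) E)} [Nonempty I] (hr : 2 * Fintype.card I < n)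
    (A : Matrix (Fin n) (Fin n) E) (hA : A.transpose = A) (hdet : A.det ≠ 0)
    (h : InClosure T {g | g.transpose * A * g = A ∧ g.det = 1})
    (hT : ∀ g ∈ T, (P * g.map ι * C').det = 0) : False := by
  have hΩ : CharZero Ω := charZero_of_injective_ringHom ι.injective
  have hdet' : (A.map ι).det ≠ 0 := by
    have : (A.map ι).det = ι A.det := by rw [RingHom.map_det, RingHom.mapMatrix_apply]
    rw [this]
    exact (map_ne_zero ι).2 hdet
  have hA' : (A.map ι).transpose = A.map ι := by rw [← Matrix.transpose_map, hA]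
  have hmul : ∀ a ∈ {g : Matrix (Fin n) (Fin n) E | g.transpose * A * g = A ∧ g.det = 1},
      ∀ b ∈ {g : Matrix (Fin n) (Fin n) E | g.transpose * A * g = A ∧ g.det = 1},
      a * b ∈ {g : Matrix (Fin n) (Fin n) E | g.transpose * A * g = A ∧ g.det = 1} := by
    intro a ha b hb
    simp only [Set.mem_ofPred_eq] at ha hb ⊢
    constructor
    · rw [Matrix.transpose_mul]
      calc b.transpose * a.transpose * A * (a * b) = b.transpose * (a.transpose * A * a) * b := by
            simp only [Matrix.mul_assoc]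
        _ = A := by rw [ha.1, hb.1]
    · rw [det_mul, ha.2, hb.2, mul_one]
  have hone : (1 : Matrix (Fin n) (Fin n) E) ∈
      {g : Matrix (Fin n) (Fin n) E | g.transpose * A * g = A ∧ g.det = 1} := by simp
  let U := zclMonoid (Ω := Ω) ι hone hmul
  -- products of two reflections
  have heven : ∀ a b : Fin n → Ω, (a ᵥ* A.map ι) ⬝ᵥ a ≠ 0 → (b ᵥ* A.map ι) ⬝ᵥ b ≠ 0 →
      rM (A.map ι) a * rM (A.map ι) b ∈ U := by
    intro a b ha hb
    rw [mem_zclMonoid]
    let θ : Fin n ⊕ Fin n → Ω := Sum.elim a b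
    have h1 : rM (A.map ι) a * rM (A.map ι) b =
        mev θ (rG (Ω := Ω) ι A (Sum.inl : Fin n → Fin n ⊕ Fin n) *
          rG ι A (Sum.inr : Fin n → Fin n ⊕ Fin n)) := by
      have h2 : ∀ G₁ G₂ : Matrix (Fin n) (Fin n) (MvPolynomial (Fin n ⊕ Fin n) Ω),
          mev θ (G₁ * G₂) = mev θ G₁ * mev θ G₂ := fun G₁ G₂ => Matrix.map_mul
      rw [h2, mev_rG, mev_rG]
      rfl
    rw [h1]
    refine poly_points ι _ _ (rq ι A (Sum.inl : Fin n → Fin n ⊕ Fin n) *
      rq ι A (Sum.inr : Fin n → Fin n ⊕ Fin n)) ?_ θ ?_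
    · intro η hη
      have h2 : ∀ G₁ G₂ : Matrix (Fin n) (Fin n) (MvPolynomial (Fin n ⊕ Fin n) Ω),
          mev (fun x => ι (η x)) (G₁ * G₂) =
            mev (fun x => ι (η x)) G₁ * mev (fun x => ι (η x)) G₂ := fun G₁ G₂ => Matrix.map_mul
      rw [h2, mev_rG, mev_rG]
      rw [map_mul, eval_rq, eval_rq] at hη
      obtain ⟨hη1, hη2⟩ := mul_ne_zero_iff.1 hη
      let η₁ : Fin n → E := fun l => η (Sum.inl l)
      let η₂ : Fin n → E := fun l => η (Sum.inr l)
      have h3 : (η₁ ᵥ* A) ⬝ᵥ η₁ ≠ 0 := by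
        intro h0
        apply hη1
        have := eval_pt ι A η₁
        rw [h0, map_zero] at this
        exact this
      have h4 : (η₂ ᵥ* A) ⬝ᵥ η₂ ≠ 0 := by
        intro h0
        apply hη2
        have := eval_pt ι A η₂
        rw [h0, map_zero] at this
        exact this
      refine ⟨ι ((η₁ ᵥ* A) ⬝ᵥ η₁) * ι ((η₂ ᵥ* A) ⬝ᵥ η₂),
        (1 - (2 / ((η₁ ᵥ* A) ⬝ᵥ η₁)) • vecMulVec η₁ (η₁ ᵥ* A)) *
          (1 - (2 / ((η₂ ᵥ* A) ⬝ᵥ η₂)) • vecMulVec η₂ (η₂ ᵥ* A)), ?_, ?_⟩
      · simp only [Set.mem_ofPred_eq]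
        constructor
        · rw [Matrix.transpose_mul]
          have h5 := reflection_mem A hA η₁ h3
          have h6 := reflection_mem A hA η₂ h4
          set X₁ := (1 - (2 / ((η₁ ᵥ* A) ⬝ᵥ η₁)) • vecMulVec η₁ (η₁ ᵥ* A))
          set X₂ := (1 - (2 / ((η₂ ᵥ* A) ⬝ᵥ η₂)) • vecMulVec η₂ (η₂ ᵥ* A))
          calc X₂.transpose * X₁.transpose * A * (X₁ * X₂) =
                X₂.transpose * (X₁.transpose * A * X₁) * X₂ := by simp only [Matrix.mul_assoc]
            _ = A := by rw [h5, h6]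
        · rw [det_mul, det_reflection A η₁ h3, det_reflection A η₂ h4]
          ring
      · have h5 := rM_eq ι A η₁ h3
        have h6 := rM_eq ι A η₂ h4
        rw [Matrix.map_mul, ← smul_smul, ← Matrix.mul_smul, ← Matrix.smul_mul, ← h5, ← h6]
    · rw [map_mul, eval_rq, eval_rq]
      exact mul_ne_zero ha hb
  -- the monoid generated by the reflections
  let R : Set (Matrix (Fin n) (Fin n) Ω) :=
    {g | ∃ a : Fin n → Ω, (a ᵥ* A.map ι) ⬝ᵥ a ≠ 0 ∧ g = rM (A.map ι) a}
  have hpar : ∀ g ∈ Submonoid.closure R, g ∈ U ∨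
      ∀ b : Fin n → Ω, (b ᵥ* A.map ι) ⬝ᵥ b ≠ 0 → g * rM (A.map ι) b ∈ U := by
    intro g hg
    induction hg using Submonoid.closure_induction_right with
    | one => exact Or.inl U.one_mem
    | mul_right x hx y hy ih =>
      obtain ⟨a, ha, rfl⟩ := hy
      rcases ih with ih | ih
      · right
        intro b hb
        rw [Matrix.mul_assoc]
        exact U.mul_mem ih (heven a b ha hb)
      · left
        exact ih a ha
  obtain ⟨g, hg, hdetg⟩ := move (Submonoid.closure R) (fun f x hf hx _ => by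
    obtain ⟨a, ha0, ha1, ha2⟩ := exists_refl ι A hA hdet f x hf hx
    refine ⟨_, a, (-(2 / ((a ᵥ* A.map ι) ⬝ᵥ a))) • (a ᵥ* A.map ι), ha0, ha1, ?_, ?_⟩
    · rw [smul_dotProduct, smul_eq_mul]
      exact mul_ne_zero (neg_ne_zero.2 (div_ne_zero two_ne_zero ha0)) ha2
    · rw [← rM_shape _ _ ha0]
      exact Submonoid.subset_closure ⟨a, ha0, rfl⟩) P hP _ C' hC le_rfl
  rcases hpar g hg with h1 | h1
  · exact hdetg (det_zero ι P C' h hT g h1)
  · obtain ⟨b, hb, hbC⟩ := exists_fix C' hC (A.map ι) hA' hdet' hr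
    have h2 := det_zero ι P C' h hT _ (h1 b hb)
    have h3 : rM (A.map ι) b * C' = ((b ᵥ* A.map ι) ⬝ᵥ b) • C' := by
      rw [rM, Matrix.sub_mul, Matrix.smul_mul, Matrix.one_mul, Matrix.smul_mul,
        Matrix.vecMulVec_mul, hbC]
      ext i j
      simp [vecMulVec_apply]
    rw [← Matrix.mul_assoc, Matrix.mul_assoc _ _ C', h3, Matrix.mul_smul, Matrix.det_smul] at h2
    exact hdetg ((mul_eq_zero.1 h2).resolve_left (pow_ne_zero _ hb))

include hP hC in
/-- big groups -/
theorem big_false {T : Set (Matrix (Fin n) (Fin n) E)} [Nonempty I]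
    (h : Big (Fintype.card I) T) (hT : ∀ g ∈ T, (P * g.map ι * C').det = 0) : False := by
  rcases h with h | ⟨A, hA, hdet, h⟩ | ⟨A, hA, hdet, h⟩ | ⟨hr, A, hA, hdet, h⟩
  · exact big_sl ι P hP C' hC h hT
  · exact big_sp ι P hP C' hC A hA hdet h hT
  · exact big_o ι P hP C' hC A hA hdet h hT
  · exact big_so ι P hP C' hC hr A hA hdet h hT

end

end Pool.Agent.H19.Ord
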