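import Mathlib

/-!
Constants of differential fields, and common extensions of fields.
-/

set_option autoImplicit false

namespace Pool.Agent.H19.Ord

universe u

/-- a subspace stable under derivations is spanned by its constant vectors -/
lemma stable_span {E : Type u} [Field E] {J : Type} (ε : J → Derivation ℤ E E) {N : Type*}
    [Fintype N] (W : Submodule E (N → E)) (hW : ∀ j, ∀ w ∈ W, (fun i => ε j (w i)) ∈ W) :
    ∀ w ∈ W, w ∈ Submodule.span E {w | w ∈ W ∧ ∀ i j, ε j (w i) = 0} := by
  classical
  let supp : (N → E) → Finset N := fun w => Finset.univ.filter (fun i => w i ≠ 0)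
  have hsupp : ∀ w i, i ∈ supp w ↔ w i ≠ 0 := fun w i => by simp [supp]
  have key : ∀ (d : ℕ) (w : N → E), w ∈ W → (supp w).card ≤ d →
      w ∈ Submodule.span E {w | w ∈ W ∧ ∀ i j, ε j (w i) = 0} := by
    intro d
    induction d with
    | zero =>
      intro w _ hd
      have h1 : supp w = ∅ := Finset.card_eq_zero.1 (by omega)
      have h2 : w = 0 := by
        funext i
        by_contra h
        have : i ∈ supp w := (hsupp w i).2 h
        rw [h1] at this
        simp at this
      rw [h2]
      exact Submodule.zero_mem _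
    | succ d ih =>
      intro w hw hd
      by_cases h0 : w = 0
      · rw [h0]
        exact Submodule.zero_mem _
      have hex : ∃ n, ∃ w' ∈ W, w' ≠ 0 ∧ supp w' ⊆ supp w ∧ (supp w').card = n :=
        ⟨_, w, hw, h0, subset_rfl, rfl⟩
      obtain ⟨w', hw', hne, hsub, hcard⟩ := Nat.find_spec hex
      obtain ⟨i₀, hi₀⟩ := Function.ne_iff.1 hne
      rw [Pi.zero_apply] at hi₀
      let v : N → E := (w' i₀)⁻¹ • w'
      have hvW : v ∈ W := W.smul_mem _ hw'
      have hv1 : v i₀ = 1 := by
        simp only [v, Pi.smul_apply, smul_eq_mul]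
        exact inv_mul_cancel₀ hi₀
      have hvs : supp v = supp w' := by
        ext i
        rw [hsupp, hsupp]
        simp [v, hi₀]
      have hconst : ∀ i j, ε j (v i) = 0 := by
        intro i j
        by_contra hne'
        have h1 := hW j v hvW
        have h2 : supp (fun i => ε j (v i)) ⊆ (supp w').erase i₀ := by
          intro l hl
          rw [hsupp] at hl
          rw [Finset.mem_erase, ← hvs, hsupp]
          constructor
          · rintro rfl
            rw [hv1] at hl
            simp at hl
          · intro h3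
            rw [h3] at hl
            simp at hl
        have h3 : (supp (fun i => ε j (v i))).card < (supp w').card :=
          (Finset.card_le_card h2).trans_lt
            (Finset.card_erase_lt_of_mem ((hsupp w' i₀).2 hi₀))
        refine Nat.find_min hex (m := (supp (fun i => ε j (v i))).card) (by rw [← hcard]; exact h3)
          ⟨_, h1, ?_, ?_, rfl⟩
        · intro h4
          exact hne' (congrFun h4 i)
        · exact h2.trans ((Finset.erase_subset _ _).trans hsub)
      have hvspan : v ∈ Submodule.span E {w | w ∈ W ∧ ∀ i j, ε j (w i) = 0} :=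
        Submodule.subset_span ⟨hvW, hconst⟩
      have hi₀w : i₀ ∈ supp w := hsub ((hsupp w' i₀).2 hi₀)
      have h5 : (supp (w - w i₀ • v)).card ≤ d := by
        have h6 : supp (w - w i₀ • v) ⊆ (supp w).erase i₀ := by
          intro l hl
          rw [hsupp] at hl
          rw [Finset.mem_erase, hsupp]
          constructor
          · rintro rfl
            apply hl
            simp [hv1]
          · intro h7
            apply hl
            have h8 : v l = 0 := by
              by_contra h9
              have h10 : l ∈ supp w := by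
                apply hsub
                rw [← hvs, hsupp]
                exact h9
              rw [hsupp] at h10
              exact h10 h7
            simp [h7, h8]
        have h11 := Finset.card_le_card h6
        rw [Finset.card_erase_of_mem hi₀w] at h11
        omega
      have h6 := ih (w - w i₀ • v) (W.sub_mem hw (W.smul_mem _ hvW)) h5
      have h7 := Submodule.add_mem _ h6 (Submodule.smul_mem _ (w i₀) hvspan)
      rwa [sub_add_cancel] at h7
  intro w hw
  exact key _ w hw le_rfl

/-- linear relations which hold for all derivatives are preserved by the maps which fix the constants -/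
lemma const_map {E Ω : Type u} [Field E] [Field Ω] {J : Type} (ε : J → Derivation ℤ E E) {N : Type*}
    [Fintype N] {S : Type*} (v : S → N → E) (hv : ∀ Q j, ∃ Q', ∀ i, ε j (v Q i) = v Q' i)
    (ι : E →+* Ω) (q : N → Ω) (hq : ∀ Q, ∑ i, q i * ι (v Q i) = 0)
    (γ : E →+* E) (hγ : ∀ x, (∀ j, ε j x = 0) → γ x = x) :
    ∀ Q, ∑ i, q i * ι (γ (v Q i)) = 0 := by
  let : Algebra E Ω := ι.toAlgebra
  have hsm : ∀ (x : E) (y : Ω), x • y = ι x * y := fun _ _ => rfl
  let W : Submodule E (N → E) :=
    { carrier := {w | ∀ Q, ∑ i, w i * v Q i = 0}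
      add_mem' := by
        intro a b ha hb Q
        simp only [Pi.add_apply, add_mul, Finset.sum_add_distrib]
        rw [ha Q, hb Q, add_zero]
      zero_mem' := by
        intro Q
        simp
      smul_mem' := by
        intro c a ha Q
        simp only [Pi.smul_apply, smul_eq_mul, mul_assoc]
        rw [← Finset.mul_sum, ha Q, mul_zero] }
  have hWmem : ∀ w, w ∈ W ↔ ∀ Q, ∑ i, w i * v Q i = 0 := fun _ => Iff.rfl
  have hWst : ∀ j, ∀ w ∈ W, (fun i => ε j (w i)) ∈ W := by
    intro j w hw
    rw [hWmem] at hw ⊢
    intro Q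
    obtain ⟨Q', hQ'⟩ := hv Q j
    have h1 := congrArg (ε j) (hw Q)
    rw [map_sum, map_zero] at h1
    simp only [Derivation.leibniz, smul_eq_mul, Finset.sum_add_distrib, hQ'] at h1
    rw [hw Q', zero_add] at h1
    rw [← h1]
    refine Finset.sum_congr rfl fun i _ => ?_
    ring
  have hWγ : ∀ w ∈ W, ∀ Q, ∑ i, w i * γ (v Q i) = 0 := by
    intro w hw Q
    have h1 := stable_span ε W hWst w hw
    induction h1 using Submodule.span_induction with
    | mem x hx =>
      obtain ⟨hx1, hx2⟩ := hx
      have h2 := congrArg γ (hx1 Q)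
      rw [map_sum, map_zero] at h2
      rw [← h2]
      refine Finset.sum_congr rfl fun i _ => ?_
      rw [map_mul, hγ (x i) (hx2 i)]
    | zero => simp
    | add x y hx hy ihx ihy =>
      have hsub : Submodule.span E {w | w ∈ W ∧ ∀ i j, ε j (w i) = 0} ≤ W :=
        Submodule.span_le.2 fun z hz => hz.1
      simp only [Pi.add_apply, add_mul, Finset.sum_add_distrib]
      rw [ihx (hsub hx), ihy (hsub hy), add_zero]
    | smul c x hx ihx =>
      have hsub : Submodule.span E {w | w ∈ W ∧ ∀ i j, ε j (w i) = 0} ≤ W :=
        Submodule.span_le.2 fun z hz => hz.1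
      simp only [Pi.smul_apply, smul_eq_mul, mul_assoc]
      rw [← Finset.mul_sum, ihx (hsub hx), mul_zero]
  intro Q
  rw [← Module.forall_dual_apply_eq_zero_iff E]
  intro l
  have hlq : (fun i => l (q i)) ∈ W := by
    rw [hWmem]
    intro Q'
    have h1 := congrArg l (hq Q')
    rw [map_sum, map_zero] at h1
    rw [← h1]
    refine Finset.sum_congr rfl fun i _ => ?_
    rw [mul_comm (q i), ← hsm, map_smul, smul_eq_mul, mul_comm]
  have h2 := hWγ _ hlq Q
  rw [map_sum, ← h2]
  refine Finset.sum_congr rfl fun i _ => ?_
  rw [mul_comm (q i), ← hsm, map_smul, smul_eq_mul, mul_comm]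

/-- a common extension of two fields -/
lemma exists_comp {R E F : Type u} [CommRing R] [Field E] [Field F] (φ : R →+* E) (ψ : R →+* F)
    (hφ : Function.Injective φ) (hψ : Function.Injective ψ) :
    ∃ (Ω : Type u) (_ : Field Ω) (a : E →+* Ω) (b : F →+* Ω), ∀ r, a (φ r) = b (ψ r) := by
  have hR : IsDomain R := hφ.isDomain φ
  let K := FractionRing R
  let e : K →+* E := IsFractionRing.lift hφ
  let f : K →+* F := IsFractionRing.lift hψ
  let : Algebra K E := e.toAlgebra
  let : Algebra K F := f.toAlgebra
  have hinj : Function.Injective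
      (Algebra.TensorProduct.includeLeft : E →ₐ[K] TensorProduct K E F) :=
    Algebra.TensorProduct.includeLeft_injective (S := K) (algebraMap K F).injective
  have hnt : Nontrivial (TensorProduct K E F) := hinj.nontrivial
  obtain ⟨M, hM⟩ := Ideal.exists_maximal (TensorProduct K E F)
  refine ⟨TensorProduct K E F ⧸ M, Ideal.Quotient.field M,
    (Ideal.Quotient.mk M).comp (Algebra.TensorProduct.includeLeft : E →ₐ[K] TensorProduct K E F),
    (Ideal.Quotient.mk M).comp (Algebra.TensorProduct.includeRight : F →ₐ[K] TensorProduct K E F),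
    ?_⟩
  intro r
  have h1 : φ r = algebraMap K E (algebraMap R K r) := by
    change φ r = e (algebraMap R K r)
    rw [IsFractionRing.lift_algebraMap]
  have h2 : ψ r = algebraMap K F (algebraMap R K r) := by
    change ψ r = f (algebraMap R K r)
    rw [IsFractionRing.lift_algebraMap]
  simp only [RingHom.comp_apply, RingHom.coe_coe]
  rw [h1, h2, AlgHom.commutes, AlgHom.commutes]

/-- independent functions remain independent over a larger field -/
lemma li_extend {F Ω : Type u} [Field F] [Field Ω] (b : F →+* Ω) {I X : Type*} [Fintype I]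
    (s : I → X → F) (h : LinearIndependent F s) :
    LinearIndependent Ω (fun u => fun x => b (s u x)) := by
  let : Algebra F Ω := b.toAlgebra
  have hsm : ∀ (x : F) (y : Ω), x • y = b x * y := fun _ _ => rfl
  rw [Fintype.linearIndependent_iff] at h ⊢
  intro c hc u
  rw [← Module.forall_dual_apply_eq_zero_iff F]
  intro l
  refine h (fun u => l (c u)) ?_ u
  funext x
  have h1 := congrFun hc x
  rw [Finset.sum_apply] at h1 ⊢
  simp only [Pi.smul_apply, smul_eq_mul, Pi.zero_apply] at h1 ⊢
  have h2 := congrArg l h1
  rw [map_sum, map_zero] at h2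
  rw [← h2]
  refine Finset.sum_congr rfl fun i _ => ?_
  rw [mul_comm (c i), ← hsm, map_smul, smul_eq_mul, mul_comm]

/-- a complete system of solutions remains complete over a larger field -/
lemma complete_extend {E Ω : Type u} [Field E] [Field Ω] (ι : E →+* Ω) {n : ℕ} {X : Type*}
    (π : Fin n → X → E) (hind : LinearIndependent E π) (Rel : (X → E) → Prop)
    (hcomp : ∀ s : X → E, Rel s → ∃ c : Fin n → E, ∀ x, s x = ∑ i, c i * π i x)
    (s : X → Ω) (hs : ∀ l : Ω → E, (∀ x y, l (x + y) = l x + l y) →
      (∀ (a : E) (x : Ω), l (ι a * x) = a * l x) → Rel (fun x => l (s x))) :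
    ∃ c : Fin n → Ω, ∀ x, s x = ∑ i, c i * ι (π i x) := by
  classical
  let : Algebra E Ω := ι.toAlgebra
  have hsm : ∀ (x : E) (y : Ω), x • y = ι x * y := fun _ _ => rfl
  -- the evaluation vectors span
  have hspan : Submodule.span E (Set.range fun x => fun i => π i x) = ⊤ := by
    by_contra hne
    obtain ⟨f, hf, hle⟩ := Submodule.exists_le_ker_of_lt_top _ (lt_top_iff_ne_top.2 hne)
    apply hf
    rw [Fintype.linearIndependent_iff] at hind
    have h1 : ∀ i, f (Pi.single i 1) = 0 := by
      refine hind (fun i => f (Pi.single i 1)) ?_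
      funext x
      rw [Finset.sum_apply]
      simp only [Pi.smul_apply, smul_eq_mul, Pi.zero_apply]
      have h2 : f (fun i => π i x) = 0 := hle (Submodule.subset_span ⟨x, rfl⟩)
      rw [← h2]
      conv_rhs => rw [pi_eq_sum_univ' (fun i => π i x), map_sum]
      refine Finset.sum_congr rfl fun i _ => ?_
      rw [map_smul, smul_eq_mul, mul_comm]
    ext i
    simpa using h1 i
  have hmu : ∀ i : Fin n, ∃ μ : X →₀ E, ∀ i', μ.sum (fun x a => a * π i' x) = if i' = i then 1 else 0 := by
    intro i
    have h1 : (Pi.single i 1 : Fin n → E) ∈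
        Submodule.span E (Set.range fun x => fun i => π i x) := by rw [hspan]; trivial
    rw [Finsupp.mem_span_range_iff_exists_finsupp] at h1
    obtain ⟨μ, hμ⟩ := h1
    refine ⟨μ, fun i' => ?_⟩
    have h2 := congrFun hμ i'
    rw [Finsupp.sum, Finset.sum_apply] at h2
    rw [Finsupp.sum]
    simp only [Pi.smul_apply, smul_eq_mul] at h2
    rw [h2, Pi.single_apply]
  choose μ hμ using hmu
  refine ⟨fun i => (μ i).sum fun x a => ι a * s x, fun x => ?_⟩
  rw [← sub_eq_zero, ← Module.forall_dual_apply_eq_zero_iff E]
  intro l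
  have hl1 : ∀ (a : E) (y : Ω), l (ι a * y) = a * l y := by
    intro a y
    rw [← hsm, map_smul, smul_eq_mul]
  obtain ⟨c, hc⟩ := hcomp _ (hs l (fun x y => map_add l x y) hl1)
  rw [map_sub, map_sum, hc x, sub_eq_zero]
  refine Finset.sum_congr rfl fun i _ => ?_
  rw [mul_comm _ (ι (π i x)), hl1, mul_comm]
  congr 1
  simp only [Finsupp.sum, map_sum]
  have h3 : ∀ y ∈ (μ i).support, l (ι (μ i y) * s y) = ∑ i', c i' * (μ i y * π i' y) := by
    intro y _
    rw [hl1, hc y, Finset.mul_sum]
    refine Finset.sum_congr rfl fun i' _ => ?_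
    ring
  rw [Finset.sum_congr rfl h3, Finset.sum_comm]
  have h4 : ∀ i' : Fin n, ∑ y ∈ (μ i).support, c i' * (μ i y * π i' y) =
      c i' * if i' = i then 1 else 0 := by
    intro i'
    rw [← Finset.mul_sum, ← hμ i i']
    rfl
  rw [Finset.sum_congr rfl fun i' _ => h4 i']
  simp

end Pool.Agent.H19.Ord
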