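import Mathlib
import Pool.Agent.H19.Ord.Defs

/-!
Multilinear expressions in period functions and their derivatives.
-/

set_option autoImplicit false

namespace Pool.Agent.H19.Ord

universe u

open MvPolynomial

section gen

variable {R Ω : Type u} [CommRing R] [Field Ω] {I X : Type} [Fintype I]

/-- the value of a multilinear expression -/
noncomputable def evT (φ : R →+* Ω) (s : I → X → Ω) (Q : (I → X) →₀ R) : Ω :=
  Q.sum fun x r => φ r * ∏ u, s u (x u)

lemma evT_zero (φ : R →+* Ω) (s : I → X → Ω) : evT φ s 0 = 0 := by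
  simp [evT]

lemma evT_add (φ : R →+* Ω) (s : I → X → Ω) (Q Q' : (I → X) →₀ R) :
    evT φ s (Q + Q') = evT φ s Q + evT φ s Q' := by
  classical
  rw [evT, evT, evT, Finsupp.sum_add_index']
  · intro x
    simp
  · intro x r r'
    rw [map_add, add_mul]

lemma evT_single (φ : R →+* Ω) (s : I → X → Ω) (x : I → X) (r : R) :
    evT φ s (Finsupp.single x r) = φ r * ∏ u, s u (x u) := by
  rw [evT, Finsupp.sum_single_index]
  simp

lemma evT_sum (φ : R →+* Ω) (s : I → X → Ω) {K : Type*} (t : Finset K) (Q : K → (I → X) →₀ R) :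
    evT φ s (∑ i ∈ t, Q i) = ∑ i ∈ t, evT φ s (Q i) := by
  classical
  induction t using Finset.induction_on with
  | empty => simp [evT_zero]
  | insert a t ha ih => rw [Finset.sum_insert ha, Finset.sum_insert ha, evT_add, ih]

/-- multilinearity -/
lemma evT_multi [DecidableEq I] (φ : R →+* Ω) {n : ℕ} (π : Fin n → X → Ω) (C' : Fin n → I → Ω)
    (Q : (I → X) →₀ R) :
    evT φ (fun u x => ∑ i, C' i u * π i x) Q =
      ∑ κ : I → Fin n, (∏ u, C' (κ u) u) * evT φ (fun u => π (κ u)) Q := by
  induction Q using Finsupp.induction_linear with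
  | zero => simp [evT_zero]
  | add f g hf hg => simp only [evT_add, hf, hg, mul_add, Finset.sum_add_distrib]
  | single x r =>
    simp only [evT_single]
    rw [Fintype.prod_sum, Finset.mul_sum]
    refine Finset.sum_congr rfl fun κ _ => ?_
    rw [Finset.prod_mul_distrib]
    ring

lemma evT_map (φ : R →+* Ω) {Ω' : Type u} [Field Ω'] (b : Ω →+* Ω') (s : I → X → Ω)
    (Q : (I → X) →₀ R) : evT (b.comp φ) (fun u x => b (s u x)) Q = b (evT φ s Q) := by
  rw [evT, evT, Finsupp.sum, Finsupp.sum, map_sum]
  refine Finset.sum_congr rfl fun x _ => ?_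
  rw [map_mul, map_prod, RingHom.comp_apply]

/-- the determinant -/
noncomputable def detT (R : Type u) [CommRing R] [DecidableEq I] (w : I → X) : (I → X) →₀ R :=
  ∑ σ : Equiv.Perm I, Finsupp.single (fun u => w (σ u)) ((Equiv.Perm.sign σ : ℤ) : R)

lemma evT_det [DecidableEq I] (φ : R →+* Ω) (s : I → X → Ω) (w : I → X) :
    evT φ s (detT R w) = (Matrix.of fun a b => s b (w a)).det := by
  rw [detT, evT_sum, Matrix.det_apply']
  refine Finset.sum_congr rfl fun σ _ => ?_
  rw [evT_single]
  congr 1
  simp

end gen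

section der

variable {V : Type} [Fintype V] {R : Type u} [CommRing R] {J : Type} {W : V → ℕ} {m : ℕ}

/-- the form `x ^ (g + a) / f ^ (k + 1)` -/
noncomputable def next (f : MvPolynomial V R) (hf : ∀ a ∈ f.support, ∑ v, W v * a v = m) (x : Forms W m)
    (a : {a // a ∈ f.support}) : Forms W m :=
  ⟨(x.1.1 + 1, x.1.2 + a.1), by omega, by
    have h1 := hf a.1 a.2
    have h2 := x.2.2.1
    simp only [Finsupp.add_apply, mul_add, Finset.sum_add_distrib, h1, h2]
    ring, fun v => by
    have := x.2.2.2 v
    simp only [Finsupp.add_apply]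
    omega⟩

/-- the derivative of a product -/
lemma der_prod {F : Type u} [Field F] (δ : Derivation ℤ F F) {I : Type} [DecidableEq I]
    (t : Finset I) (s : I → F) :
    δ (∏ u ∈ t, s u) = ∑ u ∈ t, (∏ v ∈ t.erase u, s v) * δ (s u) := by
  induction t using Finset.induction_on with
  | empty => simp
  | insert a t ha ih =>
    rw [Finset.prod_insert ha, Derivation.leibniz, ih, Finset.sum_insert ha,
      Finset.erase_insert ha, smul_eq_mul, smul_eq_mul, add_comm, Finset.mul_sum]
    congr 1
    refine Finset.sum_congr rfl fun u hu => ?_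
    have hne : u ≠ a := fun h => ha (h ▸ hu)
    rw [Finset.erase_insert_of_ne hne.symm, Finset.prod_insert]
    · ring
    · intro h
      exact ha (Finset.mem_of_mem_erase h)

variable {I : Type} [Fintype I]

/-- the derivative of a multilinear expression is a multilinear expression -/
lemma exists_nabla (f : MvPolynomial V R) (hf : ∀ a ∈ f.support, ∑ v, W v * a v = m)
    (D : J → Derivation ℤ R R) (j : J) (Q : (I → Forms W m) →₀ R) :
    ∃ Q' : (I → Forms W m) →₀ R, ∀ (F : Type u) [Field F] (φ : R →+* F)
      (δ : J → Derivation ℤ F F), (∀ j a, δ j (φ a) = φ (D j a)) →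
      ∀ s : I → ℕ → (V →₀ ℕ) → F, (∀ u, IsPeriod W m f D φ δ (s u)) →
        δ j (evT φ (fun u x => s u x.1.1 x.1.2) Q) = evT φ (fun u x => s u x.1.1 x.1.2) Q' := by
  classical
  induction Q using Finsupp.induction_linear with
  | zero =>
    refine ⟨0, ?_⟩
    intro F _ φ δ _ s _
    rw [evT_zero, map_zero]
  | add f g hf hg =>
    obtain ⟨f', hf'⟩ := hf
    obtain ⟨g', hg'⟩ := hg
    refine ⟨f' + g', ?_⟩
    intro F _ φ δ hδ s hs
    rw [evT_add, map_add, hf' F φ δ hδ s hs, hg' F φ δ hδ s hs, evT_add]
  | single x r =>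
    refine ⟨Finsupp.single x (D j r) + ∑ u, ∑ a ∈ f.support.attach,
      Finsupp.single (Function.update x u (next f hf (x u) a)) (r * D j (coeff a.1 f)), ?_⟩
    intro F _ φ δ hδ s hs
    rw [evT_single, Derivation.leibniz, hδ, evT_add, evT_single, smul_eq_mul, smul_eq_mul, add_comm]
    congr 1
    · ring
    · rw [der_prod, evT_sum, Finset.mul_sum]
      refine Finset.sum_congr rfl fun u _ => ?_
      rw [(hs u).flat (x u).1.1 (x u).1.2 j (x u).2.1 (x u).2.2.1 (x u).2.2.2, evT_sum,
        Finset.mul_sum, Finset.mul_sum, ← Finset.sum_attach]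
      refine Finset.sum_congr rfl fun a _ => ?_
      rw [evT_single, map_mul, ← Finset.mul_prod_erase Finset.univ _ (Finset.mem_univ u)]
      have h1 : ∏ v ∈ Finset.univ.erase u, s v (Function.update x u (next f hf (x u) a) v).1.1
          (Function.update x u (next f hf (x u) a) v).1.2 =
          ∏ v ∈ Finset.univ.erase u, s v (x v).1.1 (x v).1.2 := by
        refine Finset.prod_congr rfl fun v hv => ?_
        rw [Function.update_of_ne (Finset.ne_of_mem_erase hv)]
      rw [h1, Function.update_self]
      simp only [next]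
      ring

end der

end Pool.Agent.H19.Ord
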