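import Mathlib

/-!
Derivations on the residue field of a good prime, and derivations of an ultraproduct of fields.
-/

set_option autoImplicit false

namespace Pool.Agent.H19.Ord

universe u

/-- extension of a derivation to a field of fractions -/
lemma exists_der {A κ : Type*} [CommRing A] [Field κ] (φ : A →+* κ)
    (hfrac : ∀ z : κ, ∃ a s : A, φ s ≠ 0 ∧ z * φ s = φ a)
    (E : A → κ) (hadd : ∀ a b, E (a + b) = E a + E b)
    (hmul : ∀ a b, E (a * b) = φ a * E b + φ b * E a) (hker : ∀ a, φ a = 0 → E a = 0) :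
    ∃ δ : Derivation ℤ κ κ, ∀ a, δ (φ a) = E a := by
  classical
  choose num den hden hnum using hfrac
  let d : κ → κ := fun z => (E (num z) - z * E (den z)) / φ (den z)
  have hneg : ∀ a, E (-a) = - E a := by
    intro a
    have h0 : E 0 = 0 := by have := hadd 0 0; simp at this; exact this
    have h1 := hadd a (-a)
    rw [add_neg_cancel, h0] at h1
    exact (neg_eq_of_add_eq_zero_right h1.symm).symm
  have key : ∀ z a s, φ s ≠ 0 → z * φ s = φ a → d z = (E a - z * E s) / φ s := by
    intro z a s hs hz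
    have h1 : φ (a * den z + -(num z * s)) = 0 := by
      rw [map_add, map_neg, map_mul, map_mul, ← hz, ← hnum z]; ring
    have h2 := hker _ h1
    rw [hadd, hneg, hmul, hmul, ← hz, ← hnum z] at h2
    change (E (num z) - z * E (den z)) / φ (den z) = _
    rw [div_eq_div_iff (hden z) hs]
    linear_combination (-1 : κ) * h2
  have hd : ∀ a, d (φ a) = E a := by
    intro a
    have h1 : E 1 = 0 := by have := hmul 1 1; simp at this; exact this
    rw [key (φ a) a 1 (by simp) (by simp), h1]
    simp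
  have hdadd : ∀ z w, d (z + w) = d z + d w := by
    intro z w
    have h1 : φ (den z * den w) ≠ 0 := by rw [map_mul]; exact mul_ne_zero (hden z) (hden w)
    rw [key (z + w) (num z * den w + num w * den z) (den z * den w) h1
      (by rw [map_add, map_mul, map_mul, map_mul, ← hnum z, ← hnum w]; ring),
      key z (num z) (den z) (hden z) (hnum z), key w (num w) (den w) (hden w) (hnum w),
      hadd, hmul, hmul, hmul, map_mul, ← hnum z, ← hnum w]
    have := hden z
    have := hden w
    field_simp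
    ring
  have hdmul : ∀ z w, d (z * w) = z * d w + w * d z := by
    intro z w
    have h1 : φ (den z * den w) ≠ 0 := by rw [map_mul]; exact mul_ne_zero (hden z) (hden w)
    rw [key (z * w) (num z * num w) (den z * den w) h1
      (by rw [map_mul, map_mul, ← hnum z, ← hnum w]; ring),
      key z (num z) (den z) (hden z) (hnum z), key w (num w) (den w) (hden w) (hnum w),
      hmul, hmul, map_mul, ← hnum z, ← hnum w]
    have := hden z
    have := hden w
    field_simp
    ring
  let L : κ →+ κ := AddMonoidHom.mk' d hdadd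
  refine ⟨Derivation.mk' L.toIntLinearMap fun a b => ?_, fun a => hd a⟩
  simp only [smul_eq_mul]
  exact hdmul a b

/-- a derivation descends to the residue field of a good prime -/
lemma der_residue {A κ : Type*} [CommRing A] [Field κ] (φ : A →+* κ) (p : ℕ) (hp : φ (p : A) = 0)
    (hfrac : ∀ z : κ, ∃ a s : A, φ s ≠ 0 ∧ z * φ s = φ a)
    (hgood : ∀ x, φ x = 0 → ∃ s, φ s ≠ 0 ∧ ∃ y, s * x = p * y)
    (D : Derivation ℤ A A) : ∃ δ : Derivation ℤ κ κ, ∀ a, δ (φ a) = φ (D a) := by
  refine exists_der φ hfrac (fun a => φ (D a)) (fun a b => by rw [map_add, map_add])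
    (fun a b => by rw [Derivation.leibniz]; simp [smul_eq_mul]) ?_
  intro x hx
  obtain ⟨s, hs, y, hy⟩ := hgood x hx
  have h1 : φ (D (s * x)) = 0 := by
    rw [hy, Derivation.leibniz, map_add, smul_eq_mul, map_mul, hp, zero_mul, zero_add]
    have h2 : D (p : A) = 0 := by
      exact D.map_natCast p
    rw [h2, smul_zero, map_zero]
  rw [Derivation.leibniz, map_add, smul_eq_mul, smul_eq_mul, map_mul, map_mul, hx, zero_mul,
    add_zero] at h1
  exact (mul_eq_zero.1 h1).resolve_left hs

/-- the residue field of a prime ideal -/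
lemma exists_residue {R : Type u} [CommRing R] (Q : Ideal R) (hQ : Q.IsPrime) :
    ∃ (κ : Type u) (_ : Field κ) (φ : R →+* κ), (∀ a, φ a = 0 ↔ a ∈ Q) ∧
      ∀ z : κ, ∃ a s : R, φ s ≠ 0 ∧ z * φ s = φ a := by
  let φ : R →+* FractionRing (R ⧸ Q) :=
    (algebraMap (R ⧸ Q) (FractionRing (R ⧸ Q))).comp (Ideal.Quotient.mk Q)
  have hφ : ∀ a, φ a = 0 ↔ a ∈ Q := by
    intro a
    change algebraMap (R ⧸ Q) (FractionRing (R ⧸ Q)) (Ideal.Quotient.mk Q a) = 0 ↔ _
    rw [map_eq_zero_iff _ (IsFractionRing.injective (R ⧸ Q) (FractionRing (R ⧸ Q))),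
      Ideal.Quotient.eq_zero_iff_mem]
  refine ⟨FractionRing (R ⧸ Q), inferInstance, φ, hφ, ?_⟩
  intro z
  obtain ⟨⟨a, s⟩, h⟩ := IsLocalization.surj (nonZeroDivisors (R ⧸ Q)) z
  obtain ⟨a', ha'⟩ := Ideal.Quotient.mk_surjective a
  obtain ⟨s', hs'⟩ := Ideal.Quotient.mk_surjective (s : R ⧸ Q)
  refine ⟨a', s', ?_, ?_⟩
  · intro h0
    rw [hφ, ← Ideal.Quotient.eq_zero_iff_mem, hs'] at h0
    exact nonZeroDivisors.ne_zero s.2 h0
  · change z * algebraMap (R ⧸ Q) (FractionRing (R ⧸ Q)) (Ideal.Quotient.mk Q s') =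
      algebraMap (R ⧸ Q) (FractionRing (R ⧸ Q)) (Ideal.Quotient.mk Q a')
    rw [ha', hs']
    exact h

section ultra

variable (κ : ℕ → Type u) [∀ n, Field (κ n)] (U : Ultrafilter ℕ)

/-- the ideal of the sequences that are zero almost everywhere -/
def nullIdeal : Ideal (∀ n, κ n) where
  carrier := {x | ∀ᶠ n in (U : Filter ℕ), x n = 0}
  add_mem' := by
    intro x y hx hy
    filter_upwards [hx, hy] with n h1 h2
    rw [Pi.add_apply, h1, h2, add_zero]
  zero_mem' := Filter.Eventually.of_forall fun n => rfl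
  smul_mem' := by
    intro c x hx
    filter_upwards [hx] with n h1
    rw [smul_eq_mul, Pi.mul_apply, h1, mul_zero]

lemma mem_nullIdeal (x : ∀ n, κ n) : x ∈ nullIdeal κ U ↔ ∀ᶠ n in (U : Filter ℕ), x n = 0 :=
  Iff.rfl

lemma nullIdeal_isMaximal : (nullIdeal κ U).IsMaximal := by
  classical
  rw [Ideal.isMaximal_iff]
  constructor
  · rw [mem_nullIdeal]
    simp only [Pi.one_apply, one_ne_zero, Filter.eventually_false_iff_eq_bot]
    exact U.neBot.ne
  · intro J x hJ hx hxJ
    rw [mem_nullIdeal] at hx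
    have h1 : ∀ᶠ n in (U : Filter ℕ), x n ≠ 0 := by
      rw [← Ultrafilter.eventually_not] at hx
      exact hx
    have h2 : (fun n => (x n)⁻¹ : ∀ n, κ n) * x - 1 ∈ nullIdeal κ U := by
      rw [mem_nullIdeal]
      filter_upwards [h1] with n hn
      simp [inv_mul_cancel₀ hn]
    have h3 := hJ h2
    have h4 : (fun n => (x n)⁻¹ : ∀ n, κ n) * x ∈ J := J.mul_mem_left _ hxJ
    have h5 := J.sub_mem h4 h3
    simpa using h5

/-- the ultraproduct of a sequence of fields with derivations -/
lemma exists_ult : ∃ (K : Type u) (_ : Field K) (c : (∀ n, κ n) →+* K), Function.Surjective c ∧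
    (∀ x, c x = 0 ↔ ∀ᶠ n in (U : Filter ℕ), x n = 0) ∧
    ∀ d : ∀ n, Derivation ℤ (κ n) (κ n), ∃ δ : Derivation ℤ K K,
      ∀ x : ∀ n, κ n, δ (c x) = c fun n => d n (x n) := by
  have hmax := nullIdeal_isMaximal κ U
  obtain ⟨K, hK, c, hc, hs⟩ : ∃ (K : Type u) (_ : Field K) (c : (∀ n, κ n) →+* K),
      (∀ x, c x = 0 ↔ ∀ᶠ n in (U : Filter ℕ), x n = 0) ∧ Function.Surjective c :=
    ⟨(∀ n, κ n) ⧸ nullIdeal κ U, Ideal.Quotient.field _, Ideal.Quotient.mk (nullIdeal κ U),
      fun x => by rw [Ideal.Quotient.eq_zero_iff_mem, mem_nullIdeal], Ideal.Quotient.mk_surjective⟩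
  refine ⟨K, hK, c, hs, hc, fun d => ?_⟩
  refine exists_der c ?_ (fun x => c fun n => d n (x n)) ?_ ?_ ?_
  · intro z
    obtain ⟨x, rfl⟩ := hs z
    exact ⟨x, 1, by simp, by simp⟩
  · intro a b
    rw [← map_add]
    congr 1
    funext n
    simp
  · intro a b
    rw [← map_mul, ← map_mul, ← map_add]
    congr 1
    funext n
    simp [Derivation.leibniz]
  · intro a ha
    rw [hc] at ha ⊢
    filter_upwards [ha] with n hn
    rw [hn, map_zero]

end ultra

end Pool.Agent.H19.Ord
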