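import Mathlib
import Pool.Graph.R_seed8.Y162.HW.Spread

/-!
Good primes of a finitely generated domain: for all large `p` there is a prime `Q` over `p`, outside of
a given hypersurface, such that `p` generates the maximal ideal of the local ring at `Q`.
-/

set_option autoImplicit false

namespace Pool.Agent.H19.Ord

universe u

open MvPolynomial

/-- The polynomial ring on a transcendence basis. -/
lemma exists_base {A : Type u} [CommRing A] [IsDomain A] [CharZero A] [Algebra.FiniteType ℤ A] :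
    ∃ (ι : Type u) (_ : Finite ι) (x : ι → A), IsTranscendenceBasis ℤ x := by
  obtain ⟨ι, x, hx⟩ := exists_isTranscendenceBasis' ℤ A
  refine ⟨ι, ?_, x, hx⟩
  have h1 := trdeg_lt_aleph0_of_finiteType (R := ℤ) (S := A)
  rw [← hx.cardinalMk_eq_trdeg] at h1
  exact Cardinal.lt_aleph0_iff_finite.1 h1

section

variable {A : Type u} [CommRing A] [IsDomain A] [CharZero A]
  {ι : Type u} [Finite ι] (x : ι → A)

attribute [local instance] FractionRing.liftAlgebra in
/-- unramified at the generic point -/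
lemma unram_generic [Algebra (MvPolynomial ι ℤ) A] (hx : IsTranscendenceBasis ℤ x)
    (hal : (algebraMap (MvPolynomial ι ℤ) A) = (aeval x : MvPolynomial ι ℤ →ₐ[ℤ] A).toRingHom) :
    Algebra.IsUnramifiedAt (MvPolynomial ι ℤ) (⊥ : Ideal A) := by
  have hinj : Function.Injective (algebraMap (MvPolynomial ι ℤ) A) := by
    rw [hal]; exact hx.1
  have hfs : FaithfulSMul (MvPolynomial ι ℤ) A := (faithfulSMul_iff_algebraMap_injective _ _).2 hinj
  have halg : Algebra.IsAlgebraic (MvPolynomial ι ℤ) A := by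
    have h1 := hx.isAlgebraic
    refine Algebra.IsAlgebraic.of_ringHom_of_comp_eq (S := Algebra.adjoin ℤ (Set.range x)) (B := A)
      (hx.1.aevalEquiv : MvPolynomial ι ℤ →+* Algebra.adjoin ℤ (Set.range x)) (RingHom.id A)
      hx.1.aevalEquiv.surjective Function.injective_id ?_
    rw [hal]
    ext i
    · simp
    · simp
  let B := MvPolynomial ι ℤ
  have h2 : Algebra.IsAlgebraic (FractionRing B) (FractionRing A) := by
    rw [← IsFractionRing.comap_isAlgebraic_iff (A := B)]
    have : Algebra.IsAlgebraic A (FractionRing A) := IsLocalization.isAlgebraic (FractionRing A) (nonZeroDivisors A)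
    exact Algebra.IsAlgebraic.trans B A (FractionRing A)
  have h3 : Algebra.FormallyUnramified (FractionRing B) (FractionRing A) :=
    Algebra.FormallyUnramified.of_isSeparable _ _
  have h4 : Algebra.FormallyUnramified B (FractionRing B) :=
    Algebra.FormallyUnramified.of_isLocalization (nonZeroDivisors B)
  have h5 : Algebra.FormallyUnramified B (FractionRing A) :=
    Algebra.FormallyUnramified.comp B (FractionRing B) (FractionRing A)
  have h7 : (⊥ : Ideal A).primeCompl = nonZeroDivisors A := by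
    ext a
    simp [Ideal.primeCompl]
  have h6 : IsLocalization.AtPrime (FractionRing A) (⊥ : Ideal A) := by
    rw [IsLocalization.AtPrime, h7]
    infer_instance
  let e : FractionRing A ≃ₐ[A] Localization.AtPrime (⊥ : Ideal A) :=
    IsLocalization.algEquiv (⊥ : Ideal A).primeCompl _ _
  have h8 : IsScalarTower B A (Localization.AtPrime (⊥ : Ideal A)) := inferInstance
  exact Algebra.FormallyUnramified.of_equiv (e.restrictScalars B)

/-- the ideal `(p)` of a polynomial ring over `ℤ` is prime -/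
lemma span_p_prime (p : ℕ) (hp : p.Prime) :
    (Ideal.span {(p : MvPolynomial ι ℤ)}).IsPrime := by
  have h1 : Prime ((p : ℤ)) := Nat.prime_iff_prime_int.mp hp
  have h2 : Prime (C (p : ℤ) : MvPolynomial ι ℤ) := by
    rwa [MvPolynomial.prime_C_iff]
  have h3 : (C (p : ℤ) : MvPolynomial ι ℤ) = (p : MvPolynomial ι ℤ) := by simp
  rw [h3] at h2
  rw [Ideal.span_singleton_prime h2.ne_zero]
  exact h2

lemma not_mem_span_p (b : MvPolynomial ι ℤ) (hb : b ≠ 0) :
    ∃ N : ℕ, ∀ p : ℕ, N ≤ p → p.Prime → b ∉ Ideal.span {(p : MvPolynomial ι ℤ)} := by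
  obtain ⟨m, hm⟩ := MvPolynomial.exists_coeff_ne_zero hb
  refine ⟨(coeff m b).natAbs + 1, fun p hNp hp h => ?_⟩
  rw [Ideal.mem_span_singleton] at h
  obtain ⟨q, hq⟩ := h
  have h3 : (C (p : ℤ) : MvPolynomial ι ℤ) = (p : MvPolynomial ι ℤ) := by simp
  rw [← h3] at hq
  have h4 : coeff m b = p * coeff m q := by rw [hq, coeff_C_mul]
  have h5 : (p : ℤ) ∣ coeff m b := ⟨_, h4⟩
  have h6 := Int.natAbs_dvd_natAbs.mpr h5
  have h7 := Nat.le_of_dvd (Int.natAbs_pos.mpr hm) h6
  simp at h7
  omega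

/-- **Good primes.** -/
theorem good_primes [Algebra.FiniteType ℤ A] (c : A) (hc : c ≠ 0) :
    ∃ N : ℕ, ∀ p : ℕ, N ≤ p → p.Prime → ∃ Q : Ideal A, Q.IsPrime ∧ (p : A) ∈ Q ∧ c ∉ Q ∧
      ∀ x ∈ Q, ∃ s ∉ Q, ∃ y, s * x = p * y := by
  obtain ⟨ι, _, x, hx⟩ := exists_base (A := A)
  letI : Algebra (MvPolynomial ι ℤ) A := (aeval x : MvPolynomial ι ℤ →ₐ[ℤ] A).toRingHom.toAlgebra
  have hal : (algebraMap (MvPolynomial ι ℤ) A) = (aeval x : MvPolynomial ι ℤ →ₐ[ℤ] A).toRingHom :=
    rfl
  have hinj : Function.Injective (algebraMap (MvPolynomial ι ℤ) A) := by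
    rw [hal]; exact hx.1
  have hft : (algebraMap (MvPolynomial ι ℤ) A).FiniteType := by
    have h1 : ((algebraMap (MvPolynomial ι ℤ) A).comp
        (algebraMap ℤ (MvPolynomial ι ℤ))).FiniteType := by
      have : (algebraMap ℤ A).FiniteType := RingHom.finiteType_algebraMap.mpr inferInstance
      rwa [show algebraMap ℤ A = (algebraMap (MvPolynomial ι ℤ) A).comp
        (algebraMap ℤ (MvPolynomial ι ℤ)) from RingHom.ext_int _ _] at this
    exact RingHom.FiniteType.of_comp_finiteType h1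
  have hfin : Algebra.FiniteType (MvPolynomial ι ℤ) A := RingHom.finiteType_algebraMap.mp hft
  have hun := unram_generic x hx hal
  obtain ⟨h, hh, hh'⟩ := Algebra.exists_formallyUnramified_of_isUnramifiedAt
    (R := MvPolynomial ι ℤ) (⊥ : Ideal A)
  have hh0 : h ≠ 0 := by simpa using hh
  obtain ⟨b, hb, hlift⟩ := Pool.Agent.Y162.HW.chev (algebraMap (MvPolynomial ι ℤ) A) hinj hft
    (c * h) (mul_ne_zero hc hh0)
  obtain ⟨N, hN⟩ := not_mem_span_p b hb
  refine ⟨N, fun p hNp hp => ?_⟩
  obtain ⟨Q, hQ, hQP, hQc⟩ := hlift _ (span_p_prime p hp) (hN p hNp hp)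
  have hpQ : (p : A) ∈ Q := by
    have : (p : MvPolynomial ι ℤ) ∈ Q.comap (algebraMap (MvPolynomial ι ℤ) A) := by
      rw [hQP]; exact Ideal.subset_span rfl
    simpa using this
  have hcQ : c ∉ Q := fun h1 => hQc (Ideal.mul_mem_right _ _ h1)
  have hhQ : h ∉ Q := fun h1 => hQc (Ideal.mul_mem_left _ _ h1)
  refine ⟨Q, hQ, hpQ, hcQ, fun y hy => ?_⟩
  -- unramified at `Q`
  have hunQ : Algebra.IsUnramifiedAt (MvPolynomial ι ℤ) Q := by
    have h1 := (Algebra.basicOpen_subset_unramifiedLocus_iff (R := MvPolynomial ι ℤ) (f := h)).2 hh'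
    exact h1 (show (⟨Q, hQ⟩ : PrimeSpectrum A) ∈ PrimeSpectrum.basicOpen h from hhQ)
  let P : Ideal (MvPolynomial ι ℤ) := Ideal.span {(p : MvPolynomial ι ℤ)}
  have hP : P.IsPrime := span_p_prime p hp
  have hlies : Q.LiesOver P := ⟨hQP.symm⟩
  letI : Algebra (Localization.AtPrime P) (Localization.AtPrime Q) :=
    Localization.AtPrime.algebraOfLiesOver P Q
  have key := ((Algebra.isUnramifiedAt_iff_map_eq (MvPolynomial ι ℤ) P Q).1 hunQ).2
  have hy' : algebraMap A (Localization.AtPrime Q) y ∈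
      IsLocalRing.maximalIdeal (Localization.AtPrime Q) := by
    rw [← Localization.AtPrime.map_eq_maximalIdeal]
    exact Ideal.mem_map_of_mem _ hy
  rw [← key, Ideal.map_span, Set.image_singleton, Ideal.mem_span_singleton] at hy'
  obtain ⟨z, hz⟩ := hy'
  obtain ⟨⟨a, s⟩, hs⟩ := IsLocalization.surj Q.primeCompl z
  have h5 : algebraMap A (Localization.AtPrime Q) (s * y) =
      algebraMap A (Localization.AtPrime Q) (p * a) := by
    rw [map_mul, map_mul, hz, ← hs]
    simp
    ring
  obtain ⟨t, ht⟩ := (IsLocalization.eq_iff_exists Q.primeCompl _).1 h5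
  refine ⟨t * s, ?_, t * a, ?_⟩
  · exact (t * s).2
  · rw [mul_assoc, ht]; ring

end

end Pool.Agent.H19.Ord
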