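import Mathlib
import Pool.Agent.H19.Ord.Red

/-!
The partial derivatives of a quasismooth form generate an ideal which contains all monomials of large
degree, also modulo almost all primes.
-/

set_option autoImplicit false

namespace Pool.Agent.H19.Ord

universe u

open MvPolynomial

attribute [local instance] FractionRing.liftAlgebra MvPolynomial.algebraMvPolynomial in
/-- the ideal of the partial derivatives, over a ring of definition -/
theorem jac_power {V : Type} [Finite V] {R k : Type u} [CommRing R] [IsDomain R] [Field k]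
    [IsAlgClosed k] (φ : R →+* k) (hφ : Function.Injective φ) (F : MvPolynomial V R)
    (hs : ∀ x : V → k, (∀ v, eval x (pderiv v (map φ F)) = 0) → x = 0) :
    ∃ b : R, b ≠ 0 ∧ ∃ n : ℕ, ∀ v, C b * (X v : MvPolynomial V R) ^ n ∈
      Ideal.span (Set.range fun i => pderiv i F) := by
  classical
  have := Fintype.ofFinite V
  let : Algebra R k := φ.toAlgebra
  have hal : algebraMap R k = φ := rfl
  have hfs : FaithfulSMul R k := (faithfulSMul_iff_algebraMap_injective _ _).2 hφ
  let K := FractionRing R
  let J : Ideal (MvPolynomial V R) := Ideal.span (Set.range fun i => pderiv i F)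
  let I : Ideal (MvPolynomial V K) := J.map (algebraMap (MvPolynomial V R) (MvPolynomial V K))
  have hz : ∀ x ∈ zeroLocus k I, x = 0 := by
    intro x hx
    apply hs
    intro v
    have h1 : pderiv v F ∈ J := Ideal.subset_span ⟨v, rfl⟩
    have h2 := hx _ (Ideal.mem_map_of_mem (algebraMap (MvPolynomial V R) (MvPolynomial V K)) h1)
    rw [MvPolynomial.algebraMap_def] at h2
    rw [MvPolynomial.pderiv_map, eval_map]
    rw [aeval_def, eval₂_map, ← IsScalarTower.algebraMap_eq R K k] at h2
    exact h2
  have hrad : ∀ v, ∃ n : ℕ, (X v : MvPolynomial V K) ^ n ∈ I := by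
    intro v
    have h1 : (X v : MvPolynomial V K) ∈ I.radical := by
      rw [← vanishingIdeal_zeroLocus_eq_radical (K := k)]
      intro x hx
      rw [hz x hx, aeval_X]
      rfl
    exact h1
  choose n hn using hrad
  let N := ∑ v, n v
  have hN : ∀ v, (X v : MvPolynomial V K) ^ N ∈ I := by
    intro v
    have h1 : n v ≤ N := Finset.single_le_sum (f := n) (fun _ _ => Nat.zero_le _) (Finset.mem_univ v)
    obtain ⟨r, hr⟩ := Nat.exists_eq_add_of_le h1
    rw [hr, pow_add]
    exact Ideal.mul_mem_right _ _ (hn v)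
  have hb : ∀ v, ∃ b : R, b ≠ 0 ∧ C b * (X v : MvPolynomial V R) ^ N ∈ J := by
    intro v
    have h1 := hN v
    rw [IsLocalization.mem_map_algebraMap_iff ((nonZeroDivisors R).map (C (σ := V)))] at h1
    obtain ⟨⟨⟨y, hy⟩, ⟨s, hs'⟩⟩, h2⟩ := h1
    obtain ⟨b, hb, rfl⟩ := hs'
    simp only at h2
    refine ⟨b, nonZeroDivisors.ne_zero hb, ?_⟩
    have h3 : C b * (X v : MvPolynomial V R) ^ N = y := by
      apply map_injective (algebraMap R K) (IsFractionRing.injective R K)
      rw [MvPolynomial.algebraMap_def] at h2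
      rw [← h2]
      simp only [map_mul, map_pow, map_X, map_C]
      ring
    rw [h3]
    exact hy
  choose b hb0 hb using hb
  refine ⟨∏ v, b v, Finset.prod_ne_zero_iff.2 fun v _ => hb0 v, N, fun v => ?_⟩
  rw [← Finset.mul_prod_erase _ _ (Finset.mem_univ v), C_mul, mul_comm (C (b v)), mul_assoc]
  exact Ideal.mul_mem_left _ _ (hb v)

/-- ... and modulo almost all primes -/
theorem jac_map {V : Type} [Fintype V] {R κ : Type u} [CommRing R] [Field κ] (φ : R →+* κ)
    (F : MvPolynomial V R) (b : R) (hb : φ b ≠ 0) (n : ℕ)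
    (h : ∀ v, C b * (X v : MvPolynomial V R) ^ n ∈ Ideal.span (Set.range fun i => pderiv i F))
    (W : V → ℕ) : JacFrom W (map φ F) ((∑ v, W v) * n + 1) := by
  apply jacFrom_of_pow
  intro v
  have h1 := Ideal.mem_map_of_mem (map φ) (h v)
  rw [Ideal.map_span, ← Set.range_comp] at h1
  have h2 : (⇑(map φ) ∘ fun i => pderiv i F) = fun i => pderiv i (map φ F) := by
    funext i
    simp [MvPolynomial.pderiv_map]
  rw [h2] at h1
  simp only [map_mul, map_C, map_pow, map_X] at h1
  have h3 : (X v : MvPolynomial V κ) ^ n = C (φ b)⁻¹ * (C (φ b) * X v ^ n) := by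
    rw [← mul_assoc, ← C_mul, inv_mul_cancel₀ hb, C_1, one_mul]
  rw [h3]
  exact Ideal.mul_mem_left _ _ h1

end Pool.Agent.H19.Ord
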