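import Mathlib
import Pool.Agent.H19.Ord.Good
import Pool.Agent.H19.Ord.Der
import Pool.Agent.H19.Ord.Jac

/-!
The limit argument: if the Hasse-Witt matrices are singular at a sequence of generic points of large
characteristic, the ultraproduct has period functions with a singular period matrix.
-/

set_option autoImplicit false

namespace Pool.Agent.H19.Ord

universe u

open MvPolynomial Filter Matrix

/-- a field with derivations over a ring with derivations -/
structure Pt {R : Type u} [CommRing R] {J : Type} (D : J → Derivation ℤ R R) where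
  κ : Type u
  [fld : Field κ]
  φ : R →+* κ
  δ : J → Derivation ℤ κ κ
  compat : ∀ j a, δ j (φ a) = φ (D j a)

attribute [instance] Pt.fld

lemma exists_pt {R : Type u} [CommRing R] {J : Type} (D : J → Derivation ℤ R R) (Q : Ideal R)
    (hQ : Q.IsPrime) (p : ℕ) (hp : (p : R) ∈ Q) (hgood : ∀ x ∈ Q, ∃ s ∉ Q, ∃ y, s * x = p * y) :
    ∃ P : Pt D, ∀ a, P.φ a = 0 ↔ a ∈ Q := by
  obtain ⟨κ, _, φ, hφ, hfrac⟩ := exists_residue Q hQ
  have hder : ∀ j, ∃ δ : Derivation ℤ κ κ, ∀ a, δ (φ a) = φ (D j a) := by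
    intro j
    refine der_residue φ p ((hφ _).2 hp) hfrac ?_ (D j)
    intro x hx
    obtain ⟨s, hs, y, hy⟩ := hgood x ((hφ x).1 hx)
    exact ⟨s, fun h => hs ((hφ s).1 h), y, hy⟩
  choose δ hδ using hder
  exact ⟨⟨κ, φ, δ, hδ⟩, hφ⟩

section gdeg

variable {V : Type} [Fintype V] {G : Type} [AddCommGroup G] (χ : V → G)

lemma gdeg_add (a b : V →₀ ℕ) : gdeg χ (a + b) = gdeg χ a + gdeg χ b := by
  simp only [gdeg, Finsupp.add_apply, add_smul, Finset.sum_add_distrib]

lemma gdeg_smul (n : ℕ) (a : V →₀ ℕ) : gdeg χ (n • a) = n • gdeg χ a := by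
  simp only [gdeg, Finsupp.smul_apply, smul_eq_mul, mul_smul, Finset.smul_sum]

lemma gdeg_zero : gdeg χ (0 : V →₀ ℕ) = 0 := by
  simp [gdeg]

/-- the exponents in the powers of an invariant polynomial have degree zero -/
lemma gdeg_pow {κ : Type u} [CommRing κ] (F : MvPolynomial V κ)
    (hF : ∀ a ∈ F.support, gdeg χ a = 0) (n : ℕ) : ∀ a ∈ (F ^ n).support, gdeg χ a = 0 := by
  classical
  induction n with
  | zero =>
    intro a ha
    rw [pow_zero, mem_support_iff, coeff_one] at ha
    split_ifs at ha with h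
    · rw [← h, gdeg_zero]
    · exact absurd rfl ha
  | succ n ih =>
    intro a ha
    rw [pow_succ] at ha
    have h1 := support_mul _ _ ha
    rw [Finset.mem_add] at h1
    obtain ⟨x, hx, y, hy, rfl⟩ := h1
    rw [gdeg_add, ih x hx, hF y hy, add_zero]

variable {R κ : Type u} [CommRing R] [Field κ] (φ : R →+* κ)

lemma frob_support (p : ℕ) (f : MvPolynomial V R) (hf : ∀ a ∈ f.support, gdeg χ a = 0)
    (e : ℕ) (he : ∀ c : G, e • c = 0) (hp : p ≡ 1 [MOD e]) (u : V →₀ ℕ) (k : ℕ) (g : V →₀ ℕ)
    (hg : gdeg χ g ≠ gdeg χ u) : frob φ p f u k g = 0 := by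
  classical
  rw [frob]
  split_ifs with hk
  · have hF : ∀ a ∈ (map φ f).support, gdeg χ a = 0 := fun a ha => hf a (support_map_subset _ _ ha)
    have hpu : p • gdeg χ u = gdeg χ u := by
      have h1 : ∀ n : ℕ, n ≡ 1 [MOD e] → n • gdeg χ u = gdeg χ u := by
        intro n hn
        have h2 : ((n : ℤ) - 1) • gdeg χ u = 0 := by
          have h3 : (e : ℤ) ∣ (n : ℤ) - 1 := by
            have := (Nat.modEq_iff_dvd.1 hn.symm)
            simpa using this
          obtain ⟨r, hr⟩ := h3
          rw [hr, mul_comm, mul_smul]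
          have := he (gdeg χ u)
          rw [natCast_zsmul, this, smul_zero]
        rw [sub_smul, one_smul, natCast_zsmul, sub_eq_zero] at h2
        exact h2
      exact h1 p hp
    rw [coeff_monomial_mul']
    split_ifs with hle
    · by_cases hc : coeff (p • u - g) ((map φ f) ^ (p - k)) = 0
      · rw [hc]; simp
      · exfalso
        have h1 := gdeg_pow χ (map φ f) hF (p - k) _ (mem_support_iff.2 hc)
        apply hg
        have h2 : p • u = g + (p • u - g) := (add_tsub_cancel_of_le hle).symm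
        have h3 := congrArg (gdeg χ) h2
        rw [gdeg_add, h1, add_zero, gdeg_smul, hpu] at h3
        exact h3.symm
    · simp
  · rfl

end gdeg

/-- finitely many forms with poles of bounded order -/
lemma finite_forms {V : Type} [Fintype V] (W : V → ℕ) (hW : ∀ v, 0 < W v) (m N : ℕ) :
    {x : ℕ × (V →₀ ℕ) | x.1 ≤ N ∧ ∑ v, W v * x.2 v = x.1 * m}.Finite := by
  classical
  have h1 : {x : ℕ × (V →₀ ℕ) | x.1 ≤ N ∧ ∑ v, W v * x.2 v = x.1 * m} ⊆
      (Set.Iic N) ×ˢ (Set.Iic (Finsupp.equivFunOnFinite.symm fun _ : V => N * m)) := by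
    rintro ⟨k, g⟩ ⟨hk, hg⟩
    simp only at hk hg
    refine ⟨hk, ?_⟩
    intro v
    change g v ≤ N * m
    have h2 : W v * g v ≤ ∑ v, W v * g v :=
      Finset.single_le_sum (f := fun v => W v * g v) (fun _ _ => Nat.zero_le _) (Finset.mem_univ v)
    have h3 : g v ≤ W v * g v := Nat.le_mul_of_pos_left _ (hW v)
    have h4 : k * m ≤ N * m := Nat.mul_le_mul_right _ hk
    omega
  exact ((Set.finite_Iic N).prod (Set.finite_Iic _)).subset h1

lemma sum_char {α M : Type*} [Fintype α] [AddCommMonoid M] (P : α → Prop) {F : Fintype {a // P a}}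
    (g : α → M) (h : ∀ a, ¬ P a → g a = 0) : ∑ a, g a = ∑ a : {a // P a}, g a := by
  classical
  rw [← Finset.sum_subtype (Finset.univ.filter P) (by simp) g]
  symm
  apply Finset.sum_subset (Finset.filter_subset _ _)
  intro a _ ha
  apply h
  simpa using ha

lemma hasseWitt_map {V : Type} [Fintype V] {R S : Type*} [CommRing R] [CommRing S] (φ : R →+* S)
    (W : V → ℕ) (m p : ℕ) (f : MvPolynomial V R) :
    (hasseWitt W m p f).map φ = hasseWitt W m p (MvPolynomial.map φ f) := by
  ext u w
  simp only [hasseWitt, Matrix.of_apply, Matrix.map_apply]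
  rw [← coeff_map, _root_.map_mul, map_monomial, _root_.map_one, _root_.map_pow]

section limit

variable {V : Type} [Fintype V] [DecidableEq V] {R : Type u} [CommRing R]
  {J : Type} {G : Type} [AddCommGroup G]

/-- **The limit argument.** -/
theorem limit [CharZero R] (W : V → ℕ) (hW : ∀ v, 0 < W v) (m : ℕ) (hm : 1 ≤ m)
    (f : MvPolynomial V R)
    (hf : ∀ a ∈ f.support, ∑ v, W v * a v = m) (D : J → Derivation ℤ R R)
    (χ : V → G) (hχ : ∀ a ∈ f.support, gdeg χ a = 0) (e : ℕ) (he : ∀ c : G, e • c = 0)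
    (b : R) (n₀ : ℕ) (hb : ∀ v, C b * (X v : MvPolynomial V R) ^ n₀ ∈
      Ideal.span (Set.range fun i => pderiv i f))
    (hP : NonvanishingPeriods W m f D χ)
    (P : ℕ → Pt D) (p : ℕ → ℕ) (hp : ∀ n, (p n).Prime) (hchar : ∀ n, CharP (P n).κ (p n))
    (hpe : ∀ n, p n ≡ 1 [MOD e]) (hbP : ∀ n, (P n).φ b ≠ 0)
    (hinj : ∀ a, a ≠ 0 → ∀ᶠ n in atTop, (P n).φ a ≠ 0)
    (hdet : ∀ n, (P n).φ (hasseWitt W m (p n) f).det = 0) : False := by
  classical
  let U : Ultrafilter ℕ := hyperfilter ℕ
  have hU : (U : Filter ℕ) ≤ atTop := by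
    rw [← Nat.cofinite_eq_atTop]
    exact hyperfilter_le_cofinite
  let κ : ℕ → Type u := fun n => (P n).κ
  obtain ⟨K, _, cl, cl_surj, cl_eq_zero, cl_der⟩ := exists_ult κ U
  let Φ : R →+* K := cl.comp (RingHom.pi fun n => (P n).φ)
  have hΦ : ∀ a, Φ a = cl fun n => (P n).φ a := fun a => rfl
  have hΦinj : Function.Injective Φ := by
    rw [injective_iff_map_eq_zero]
    intro a ha
    by_contra hne
    rw [hΦ, cl_eq_zero] at ha
    have h1 := hU (hinj a hne)
    have h2 := (ha.and h1).exists
    obtain ⟨n, h3, h4⟩ := h2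
    exact h4 h3
  have hK : CharZero K := charZero_of_injective_ringHom hΦinj
  have hder : ∀ j, ∃ δ : Derivation ℤ K K, ∀ x : ∀ n, κ n,
      δ (cl x) = cl fun n => (P n).δ j (x n) :=
    fun j => cl_der fun n => (P n).δ j
  choose δ hδ using hder
  have hcompat : ∀ j a, δ j (Φ a) = Φ (D j a) := by
    intro j a
    rw [hΦ, hδ, hΦ]
    congr 1
    funext n
    exact (P n).compat j a
  -- the kernels
  have hker : ∀ n, ∃ x : Exps W m → κ n, x ≠ 0 ∧
      x ᵥ* (hasseWitt W m (p n) (map (P n).φ f)) = 0 := by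
    intro n
    rw [Matrix.exists_vecMul_eq_zero_iff]
    rw [← hdet n, RingHom.map_det, RingHom.mapMatrix_apply, hasseWitt_map]
  choose x hx0 hx using hker
  obtain ⟨u₀, hu₀⟩ : ∃ u₀, ∀ᶠ n in (U : Filter ℕ), x n u₀ ≠ 0 := by
    by_contra hcon
    push Not at hcon
    have h1 : ∀ u, ∀ᶠ n in (U : Filter ℕ), x n u = 0 := by
      intro u
      have h2 := hcon u
      exact h2
    rw [← Filter.eventually_all] at h1
    obtain ⟨n, hn⟩ := h1.exists
    exact hx0 n (funext hn)
  let c : G := gdeg χ (expo u₀)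
  let ψ : {u : Exps W m // gdeg χ (expo u) = c} → ℕ → (V →₀ ℕ) → K :=
    fun u k g => cl fun n => frob (P n).φ (p n) f (expo u.1) k g
  have hper : ∀ u, IsPeriod W m f D Φ δ (ψ u) := by
    intro u
    have hn := fun n => frob_isPeriod (P n).φ (p n) (hp n) W m f D (P n).δ (P n).compat (expo u.1)
    constructor
    · intro k g i hk hg hpos
      have h1 : (g i : K) = cl fun n => ((g i : ℕ) : κ n) := by
        rw [← map_natCast cl]
        rfl
      have h2 : ∀ a, Φ (coeff a f) * (a i : K) * ψ u (k + 1) (g + a) =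
          cl fun n => (P n).φ (coeff a f) * (a i : κ n) *
            frob (P n).φ (p n) f (expo u.1) (k + 1) (g + a) := by
        intro a
        have h3 : (a i : K) = cl fun n => ((a i : ℕ) : κ n) := by
          rw [← map_natCast cl]
          rfl
        rw [hΦ, h3, ← map_mul, ← map_mul]
        rfl
      simp only [h2]
      rw [h1, ← map_mul, ← map_sum, ← map_add]
      rw [cl_eq_zero]
      refine Eventually.of_forall fun n => ?_
      rw [Pi.add_apply, Finset.sum_apply]
      exact (hn n).stokes k g i hk hg hpos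
    · intro k g j hk hg hpos
      have h2 : ∀ a, Φ (D j (coeff a f)) * ψ u (k + 1) (g + a) =
          cl fun n => (P n).φ (D j (coeff a f)) *
            frob (P n).φ (p n) f (expo u.1) (k + 1) (g + a) := by
        intro a
        rw [hΦ, ← map_mul]
        rfl
      simp only [h2]
      rw [hδ, ← map_sum]
      congr 1
      funext n
      rw [Finset.sum_apply]
      exact (hn n).flat k g j hk hg hpos
  have hsupp : ∀ u k g, gdeg χ g ≠ c → ψ u k g = 0 := by
    intro u k g hg
    change cl _ = 0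
    rw [cl_eq_zero]
    refine Eventually.of_forall fun n => ?_
    exact frob_support χ (P n).φ (p n) f hχ e he (hpe n) (expo u.1) k g (by rw [u.2]; exact hg)
  -- independence
  have hind : LinearIndependent K (fun u => fun y : Forms W m => ψ u y.1.1 y.1.2) := by
    rw [Fintype.linearIndependent_iff]
    intro y hy
    have hlift : ∀ u, ∃ z : ∀ n, κ n, cl z = y u := fun u => cl_surj (y u)
    choose z hz using hlift
    let N₀ := (∑ v, W v) * n₀ + 1
    have hfin := finite_forms W hW m (N₀ + ∑ v, W v + 1)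
    have hev : ∀ᶠ n in (U : Filter ℕ), ∀ t ∈ {t : ℕ × (V →₀ ℕ) | t.1 ≤ N₀ + ∑ v, W v + 1 ∧
        ∑ v, W v * t.2 v = t.1 * m}, 1 ≤ t.1 → (∀ v, 0 < t.2 v) →
        ∑ u, z u n * frob (P n).φ (p n) f (expo u.1) t.1 t.2 = 0 := by
      rw [hfin.eventually_all]
      intro t ht
      by_cases hcond : 1 ≤ t.1 ∧ (∀ v, 0 < t.2 v)
      · have h1 := congrFun hy ⟨t, hcond.1, ht.2, hcond.2⟩
        rw [Finset.sum_apply] at h1
        simp only [Pi.smul_apply, smul_eq_mul, Pi.zero_apply] at h1
        have h2 : ∀ u, y u * ψ u t.1 t.2 =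
            cl fun n => z u n * frob (P n).φ (p n) f (expo u.1) t.1 t.2 := by
          intro u
          rw [← hz u, ← map_mul]
          rfl
        simp only [h2] at h1
        rw [← map_sum, cl_eq_zero] at h1
        filter_upwards [h1] with n hn _ _
        rw [Finset.sum_apply] at hn
        exact hn
      · exact Eventually.of_forall fun n h1 h2 => absurd ⟨h1, h2⟩ hcond
    intro u
    rw [← hz u, cl_eq_zero]
    filter_upwards [hev] with n hn
    have hJ := jac_map (P n).φ f b (hbP n) n₀ hb W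
    have := hchar n
    let cc : Exps W m → κ n := fun w => if h : gdeg χ (expo w) = c then z ⟨w, h⟩ n else 0
    have h3 := frob_independent W m hm f hf (P n).φ N₀ hJ (p n) (hp n) cc (by
      intro k g hk hkN hg hpos
      have h4 := hn (k, g) ⟨hkN, hg⟩ hk hpos
      rw [← h4]
      rw [sum_char (fun u : Exps W m => gdeg χ (expo u) = c) _ (fun u hu => by
        simp only [cc, dif_neg hu, zero_mul])]
      refine Finset.sum_congr rfl fun u _ => ?_
      simp only [cc, dif_pos u.2]) u.1
    simpa only [cc, dif_pos u.2] using h3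
  have hfin := hP c K Φ δ hΦinj hcompat ψ hper hsupp hind
  rw [Fintype.linearIndependent_iff] at hfin
  -- the vector in the kernel
  let y : {u : Exps W m // gdeg χ (expo u) = c} → K := fun u => cl fun n => x n u.1
  have hy : ∑ u, y u • (fun w : {w : Exps W m // gdeg χ (expo w) = c} =>
      ψ u 1 (expo w.1)) = 0 := by
    funext w
    rw [Finset.sum_apply]
    simp only [Pi.smul_apply, smul_eq_mul, Pi.zero_apply]
    have h1 : ∀ u, y u * ψ u 1 (expo w.1) =
        cl fun n => x n u.1 * frob (P n).φ (p n) f (expo u.1) 1 (expo w.1) := by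
      intro u
      rw [← _root_.map_mul]
      rfl
    simp only [h1]
    rw [← map_sum, cl_eq_zero]
    refine Eventually.of_forall fun n => ?_
    rw [Finset.sum_apply]
    have h2 : ∑ u : Exps W m, x n u * frob (P n).φ (p n) f (expo u) 1 (expo w.1) = 0 := by
      have h3 := congrFun (hx n) w.1
      simp only [Matrix.vecMul, dotProduct, hasseWitt, Matrix.of_apply, Pi.zero_apply] at h3
      simp only [frob, if_pos (hp n).one_le]
      have h4 := congrArg (fun z => fac (κ n) (p n) 1 * z) h3
      simp only [mul_zero, Finset.mul_sum] at h4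
      rw [← h4]
      refine Finset.sum_congr rfl fun u _ => ?_
      ring
    rw [← h2]
    rw [sum_char (fun u : Exps W m => gdeg χ (expo u) = c) _ (fun u hu => by
      rw [frob_support χ (P n).φ (p n) f hχ e he (hpe n) (expo u) 1 (expo w.1)
        (fun h => hu (by rw [← h, w.2])), mul_zero])]
  have h0 := hfin y hy ⟨u₀, rfl⟩
  rw [cl_eq_zero] at h0
  obtain ⟨n, h1, h2⟩ := (h0.and hu₀).exists
  exact h2 h1

end limit

end Pool.Agent.H19.Ord
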