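import Mathlib
import Pool.Agent.H19.Ord.Limit

/-!
The generic points of large characteristic, and the passage to the closed points of a model.
-/

set_option autoImplicit false

namespace Pool.Agent.H19.Ord

universe u

open MvPolynomial Filter

lemma countable_of_finiteType (R : Type u) [CommRing R] [Algebra.FiniteType ℤ R] : Countable R := by
  obtain ⟨n, f, hf⟩ := Algebra.FiniteType.iff_quotient_mvPolynomial''.1
    (inferInstance : Algebra.FiniteType ℤ R)
  have h1 : Countable (MvPolynomial (Fin n) ℤ) := by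
    rw [← Cardinal.mk_le_aleph0_iff]
    refine MvPolynomial.cardinalMk_le_max.trans ?_
    simp
  exact hf.countable

section

variable {R : Type u} [CommRing R] [IsDomain R] [CharZero R] [Algebra.FiniteType ℤ R]
  {J : Type} (D : J → Derivation ℤ R R)
  {ι : Type} [Finite ι] (V : ι → Type) [∀ i, Fintype (V i)] [∀ i, DecidableEq (V i)]
  (W : ∀ i, V i → ℕ) (hW : ∀ i v, 0 < W i v) (m : ι → ℕ) (hm : ∀ i, 1 ≤ m i)
  (f : ∀ i, MvPolynomial (V i) R) (hf : ∀ i, ∀ a ∈ (f i).support, ∑ v, W i v * a v = m i)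
  (G : ι → Type) [∀ i, AddCommGroup (G i)] (χ : ∀ i, V i → G i)
  (hχ : ∀ i, ∀ a ∈ (f i).support, gdeg (χ i) a = 0)
  (e : ℕ) (he : ∀ i (c : G i), e • c = 0)
  (b : ι → R) (hb0 : ∀ i, b i ≠ 0) (n₀ : ι → ℕ)
  (hb : ∀ i v, C (b i) * (X v : MvPolynomial (V i) R) ^ (n₀ i) ∈
    Ideal.span (Set.range fun j => pderiv j (f i)))
  (hP : ∀ i, NonvanishingPeriods (W i) (m i) (f i) D (χ i))

include hW hm hf hχ he hb0 hb hP in
/-- the Hasse-Witt matrices are invertible at generic points of large characteristic -/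
theorem core (c : R) (hc : c ≠ 0) :
    ∃ N : ℕ, ∀ p : ℕ, N ≤ p → p.Prime → p ≡ 1 [MOD e] →
      ∃ Q : Ideal R, Q.IsPrime ∧ (p : R) ∈ Q ∧ c ∉ Q ∧
        ∀ i, (hasseWitt (W i) (m i) p (f i)).det ∉ Q := by
  classical
  have := Fintype.ofFinite ι
  by_contra hcon
  push Not at hcon
  have := countable_of_finiteType R
  obtain ⟨a, ha⟩ := exists_surjective_nat R
  let t : ℕ → R := fun j => if a j = 0 then 1 else a j
  have ht : ∀ j, t j ≠ 0 := by
    intro j
    simp only [t]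
    split_ifs with h
    · exact one_ne_zero
    · exact h
  let cc : ℕ → R := fun n => c * (∏ i, b i) * ∏ j ∈ Finset.range (n + 1), t j
  have hcc : ∀ n, cc n ≠ 0 := fun n => mul_ne_zero (mul_ne_zero hc
    (Finset.prod_ne_zero_iff.2 fun i _ => hb0 i)) (Finset.prod_ne_zero_iff.2 fun j _ => ht j)
  have hseq : ∀ n : ℕ, ∃ (p : ℕ) (Q : Ideal R) (i : ι), p.Prime ∧ p ≡ 1 [MOD e] ∧ Q.IsPrime ∧
      (p : R) ∈ Q ∧ cc n ∉ Q ∧ (∀ x ∈ Q, ∃ s ∉ Q, ∃ y, s * x = p * y) ∧
      (hasseWitt (W i) (m i) p (f i)).det ∈ Q := by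
    intro n
    obtain ⟨N, hN⟩ := good_primes (cc n) (hcc n)
    obtain ⟨p, hNp, hp, hpe, hbad⟩ := hcon N
    obtain ⟨Q, hQ, hpQ, hcQ, hgood⟩ := hN p hNp hp
    obtain ⟨i, hi⟩ := hbad Q hQ hpQ (fun h => hcQ (Ideal.mul_mem_right _ _
      (Ideal.mul_mem_right _ _ h)))
    exact ⟨p, Q, i, hp, hpe, hQ, hpQ, hcQ, hgood, hi⟩
  choose p Q i hp hpe hQ hpQ hcQ hgood hdet using hseq
  obtain ⟨i₀, hi₀⟩ := Finite.exists_infinite_fiber i
  let σ : ℕ ↪o ℕ := Nat.orderEmbeddingOfSet (i ⁻¹' {i₀})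
  have hσ : ∀ n, i (σ n) = i₀ := by
    intro n
    have h1 : σ n ∈ i ⁻¹' {i₀} := by
      rw [← Nat.orderEmbeddingOfSet_range (i ⁻¹' {i₀})]
      exact Set.mem_range_self n
    exact h1
  have hPt : ∀ n, ∃ P : Pt D, ∀ x, P.φ x = 0 ↔ x ∈ Q (σ n) :=
    fun n => exists_pt D (Q (σ n)) (hQ _) (p (σ n)) (hpQ _) (hgood _)
  choose P hPt using hPt
  have hbQ : ∀ n, b i₀ ∉ Q n := by
    intro n h
    apply hcQ n
    apply Ideal.mul_mem_right
    apply Ideal.mul_mem_left
    rw [← Finset.mul_prod_erase _ _ (Finset.mem_univ i₀)]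
    exact Ideal.mul_mem_right _ _ h
  refine limit (W i₀) (hW i₀) (m i₀) (hm i₀) (f i₀) (hf i₀) D (χ i₀) (hχ i₀) e (he i₀) (b i₀)
    (n₀ i₀) (hb i₀) (hP i₀) P (fun n => p (σ n)) (fun n => hp _) ?_ (fun n => hpe _) ?_ ?_ ?_
  · intro n
    have h1 : ((p (σ n) : ℕ) : (P n).κ) = 0 := by
      have := (hPt n _).2 (hpQ (σ n))
      rwa [map_natCast] at this
    have := Fact.mk (hp (σ n))
    exact (CharP.charP_iff_prime_eq_zero (hp (σ n))).2 h1
  · intro n
    rw [Ne, hPt]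
    exact hbQ _
  · intro x hx
    obtain ⟨j, rfl⟩ := ha x
    filter_upwards [eventually_ge_atTop j] with n hn
    rw [Ne, hPt]
    intro h
    apply hcQ (σ n)
    apply Ideal.mul_mem_left
    have h1 : j ∈ Finset.range (σ n + 1) := by
      have : n ≤ σ n := σ.strictMono.le_apply
      simp only [Finset.mem_range]
      omega
    rw [← Finset.mul_prod_erase _ _ h1]
    apply Ideal.mul_mem_right
    simp only [t, if_neg hx]
    exact h
  · intro n
    rw [hPt]
    have := hdet (σ n)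
    rw [hσ n] at this
    exact this

end

lemma det_map {V : Type} [Fintype V] [DecidableEq V] {R S : Type*} [CommRing R] [CommRing S]
    (φ : R →+* S) (W : V → ℕ) (m p : ℕ) (f : MvPolynomial V R) :
    (hasseWitt W m p (map φ f)).det = φ (hasseWitt W m p f).det := by
  rw [RingHom.map_det, RingHom.mapMatrix_apply, hasseWitt_map]

/-- **Dense ordinary reduction of families with invertible period matrices.** -/
theorem final {k : Type u} [Field k] [CharZero k] [IsAlgClosed k]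
    {ι : Type} [Finite ι] (V : ι → Type) [∀ i, Fintype (V i)] [∀ i, DecidableEq (V i)]
    (W : ∀ i, V i → ℕ) (hW : ∀ i v, 0 < W i v) (m : ι → ℕ) (hm : ∀ i, 1 ≤ m i)
    (f : ∀ i, MvPolynomial (V i) k) (hf : ∀ i, ∀ a ∈ (f i).support, ∑ v, W i v * a v = m i)
    (hs : ∀ i, ∀ x : V i → k, (∀ v, eval x (pderiv v (f i)) = 0) → x = 0)
    (G : ι → Type) [∀ i, AddCommGroup (G i)] (χ : ∀ i, V i → G i)
    (hχ : ∀ i, ∀ a ∈ (f i).support, gdeg (χ i) a = 0)
    (e : ℕ) (he : ∀ i (c : G i), e • c = 0)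
    (B : Subalgebra ℤ k) (hB : B.FG) {J : Type} (D : J → Derivation ℤ B B)
    (f₀ : ∀ i, MvPolynomial (V i) B) (hf₀ : ∀ i, map (algebraMap B k) (f₀ i) = f i)
    (hP : ∀ i, NonvanishingPeriods (W i) (m i) (f₀ i) D (χ i))
    (A : Subalgebra ℤ k) (hA : A.FG) (F : ∀ i, MvPolynomial (V i) A)
    (hF : ∀ i, map (algebraMap A k) (F i) = f i) (c : A) (hc : c ≠ 0) :
    ∃ N : ℕ, ∀ p : ℕ, N ≤ p → p.Prime → p ≡ 1 [MOD e] →
      ∃ M : Ideal A, M.IsMaximal ∧ (p : A) ∈ M ∧ c ∉ M ∧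
        ∀ i, (hasseWitt (W i) (m i) p (map (Ideal.Quotient.mk M) (F i))).det ≠ 0 := by
  classical
  have := Fintype.ofFinite ι
  have hBi : Function.Injective (algebraMap B k) := Subtype.val_injective
  have hBft : Algebra.FiniteType ℤ B := (Subalgebra.fg_iff_finiteType B).1 hB
  have hsupp : ∀ i, (f₀ i).support = (f i).support := fun i => by
    rw [← hf₀ i, support_map_of_injective _ hBi]
  have hjac : ∀ i, ∃ b : B, b ≠ 0 ∧ ∃ n : ℕ, ∀ v, C b * (X v : MvPolynomial (V i) B) ^ n ∈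
      Ideal.span (Set.range fun j => pderiv j (f₀ i)) := fun i =>
    jac_power (algebraMap B k) hBi (f₀ i) (by rw [hf₀ i]; exact hs i)
  choose b hb0 n₀ hb using hjac
  -- the ring generated by both
  let A₁ : Subalgebra ℤ k := B ⊔ A
  have hA₁ : A₁.FG := hB.sup hA
  have hA₁ft : Algebra.FiniteType ℤ A₁ := (Subalgebra.fg_iff_finiteType A₁).1 hA₁
  let g : B →+* A₁ := (Subalgebra.inclusion (le_sup_left : B ≤ A₁)).toRingHom
  let h : A →+* A₁ := (Subalgebra.inclusion (le_sup_right : A ≤ A₁)).toRingHom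
  have hgi : Function.Injective g := Subalgebra.inclusion_injective _
  have hhi : Function.Injective h := Subalgebra.inclusion_injective _
  have hA₁i : Function.Injective (algebraMap A₁ k) := Subtype.val_injective
  have hgt : (algebraMap A₁ k).comp g = algebraMap B k := RingHom.ext fun _ => rfl
  have hht : (algebraMap A₁ k).comp h = algebraMap A k := RingHom.ext fun _ => rfl
  have hgft : g.FiniteType := by
    have h1 : (g.comp (algebraMap ℤ B)).FiniteType := by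
      have : (algebraMap ℤ A₁).FiniteType := RingHom.finiteType_algebraMap.mpr hA₁ft
      rwa [show algebraMap ℤ A₁ = g.comp (algebraMap ℤ B) from RingHom.ext_int _ _] at this
    exact RingHom.FiniteType.of_comp_finiteType h1
  have hBN : IsNoetherianRing B := Algebra.FiniteType.isNoetherianRing ℤ B
  obtain ⟨c₀, hc₀, hlift⟩ := Pool.Agent.Y162.HW.chev g hgi hgft (h c)
    (by rwa [Ne, map_eq_zero_iff h hhi])
  obtain ⟨N, hN⟩ := core D V W hW m hm f₀ (fun i a ha => hf i a (hsupp i ▸ ha)) G χ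
    (fun i a ha => hχ i a (hsupp i ▸ ha)) e he b hb0 n₀ hb hP c₀ hc₀
  refine ⟨N, fun p hNp hp hpe => ?_⟩
  obtain ⟨Q, hQ, hpQ, hcQ, hdetQ⟩ := hN p hNp hp hpe
  obtain ⟨Q₁, hQ₁, hQQ, hcQ₁⟩ := hlift Q hQ hcQ
  have hdet : ∀ i, (hasseWitt (W i) (m i) p (F i)).det ∉ Q₁.comap h := by
    intro i hi
    apply hdetQ i
    rw [← hQQ, Ideal.mem_comap]
    rw [Ideal.mem_comap] at hi
    have h1 : map g (f₀ i) = map h (F i) := by
      apply map_injective (algebraMap A₁ k) hA₁i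
      rw [MvPolynomial.map_map, MvPolynomial.map_map, hgt, hht, hf₀ i, hF i]
    rw [← det_map, h1, det_map]
    exact hi
  have hQ₂ : (Q₁.comap h).IsPrime := hQ₁.comap h
  have hAft : Algebra.FiniteType ℤ A := (Subalgebra.fg_iff_finiteType A).1 hA
  have hJ : IsJacobsonRing A := by
    have := Pool.Agent.Y162.HW.jac_int
    exact isJacobsonRing_of_finiteType (A := ℤ)
  have hjac : (Q₁.comap h).jacobson = Q₁.comap h := isJacobsonRing_iff_prime_eq.mp hJ _ hQ₂
  have hprod : c * ∏ i, (hasseWitt (W i) (m i) p (F i)).det ∉ Q₁.comap h := by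
    intro hm
    rcases hQ₂.mem_or_mem hm with h1 | h1
    · exact hcQ₁ h1
    · rw [hQ₂.prod_mem_iff] at h1
      obtain ⟨i, _, hi⟩ := h1
      exact hdet i hi
  rw [← hjac, Ideal.jacobson, Submodule.mem_sInf] at hprod
  push Not at hprod
  obtain ⟨M, ⟨hM0M, hM⟩, hMa⟩ := hprod
  refine ⟨M, hM, hM0M ?_, fun h1 => hMa (Ideal.mul_mem_right _ M h1), fun i hi => hMa ?_⟩
  · rw [Ideal.mem_comap, map_natCast]
    have h1 : (p : B) ∈ Q₁.comap g := by rw [hQQ]; exact hpQ
    rwa [Ideal.mem_comap, map_natCast] at h1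
  · rw [det_map, Ideal.Quotient.eq_zero_iff_mem] at hi
    apply Ideal.mul_mem_left
    rw [← Finset.mul_prod_erase _ _ (Finset.mem_univ i)]
    exact Ideal.mul_mem_right _ _ hi

end Pool.Agent.H19.Ord
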