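import Mathlib
import Pool.Agent.H19.Ord.Const
import Pool.Agent.H19.Ord.Tens
import Pool.Agent.H19.Ord.BigMove

/-!
Big monodromy implies that the period matrices are invertible.
-/

set_option autoImplicit false

namespace Pool.Agent.H19.Ord

universe u

open MvPolynomial Matrix

/-- big monodromy implies that the period matrices are invertible -/
theorem nonvanishing_of_big {V : Type} [Fintype V] [DecidableEq V] {R : Type u} [CommRing R]
    [CharZero R] {J : Type}
    {G : Type} [AddCommGroup G] (W : V → ℕ) (m : ℕ) (f : MvPolynomial V R)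
    (hf : ∀ a ∈ f.support, ∑ v, W v * a v = m)
    (D : J → Derivation ℤ R R) (χ : V → G) (hbig : BigMonodromy W m f D χ) :
    NonvanishingPeriods W m f D χ := by
  classical
  intro c F _ _ φF δ hφF hcompF ψ hper hsupp hind
  by_cases hne : ∃ w : Exps W m, gdeg χ (expo w) = c
  swap
  · have : IsEmpty {u : Exps W m // gdeg χ (expo u) = c} := ⟨fun x => hne ⟨x.1, x.2⟩⟩
    exact linearIndependent_empty_type
  obtain ⟨w₀, hw₀⟩ := hne
  obtain ⟨E, _, φE, ε, n, π, hφE, hcompE, hsol, hcase⟩ := hbig c ⟨w₀, hw₀⟩
  have hE : CharZero E := charZero_of_injective_ringHom hφE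
  obtain ⟨Ω, _, a, b, hab⟩ := exists_comp φE φF hφE hφF
  let I := {u : Exps W m // gdeg χ (expo u) = c}
  have hI : Nonempty I := ⟨⟨w₀, hw₀⟩⟩
  let π' : Fin n → Forms W m → E := fun i x => π i x.1.1 x.1.2
  let s : I → Forms W m → Ω := fun u x => b (ψ u x.1.1 x.1.2)
  let form : I → Forms W m := fun w => ⟨(1, expo w.1), le_rfl, by
    simp only [expo, Finsupp.equivFunOnFinite_symm_apply_apply, one_mul]
    exact w.1.2.2, fun v => w.1.2.1 v⟩
  -- the coefficients
  have hC : ∀ u, ∃ l : Fin n → Ω, ∀ x, s u x = ∑ i, l i * a (π' i x) := by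
    intro u
    refine complete_extend a π' hsol.indep
      (fun t => ∃ s' : ℕ → (V →₀ ℕ) → E, Griffiths W m f φE s' ∧
        (∀ k g, gdeg χ g ≠ c → s' k g = 0) ∧ ∀ x : Forms W m, s' x.1.1 x.1.2 = t x) ?_ (s u) ?_
    · rintro t ⟨s', h1, h2, h3⟩
      obtain ⟨l, hl⟩ := hsol.complete s' h1 h2
      exact ⟨l, fun x => by rw [← h3 x]; exact hl x⟩
    · intro l hadd hlin
      have hl0 : l 0 = 0 := by
        have := hadd 0 0
        simpa using this
      have hsum : ∀ (t : Finset (V →₀ ℕ)) (y : (V →₀ ℕ) → Ω), l (∑ i ∈ t, y i) = ∑ i ∈ t, l (y i) := by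
        intro t y
        induction t using Finset.induction_on with
        | empty => simp [hl0]
        | insert z t hz ih => rw [Finset.sum_insert hz, Finset.sum_insert hz, hadd, ih]
      refine ⟨fun k g => l (b (ψ u k g)), ?_, ?_, fun x => rfl⟩
      · intro k g i hk hg hpos
        have h1 := congrArg (fun z => l (b z)) ((hper u).stokes k g i hk hg hpos)
        simp only [map_zero, hl0] at h1
        rw [map_add, map_mul, map_sum, hadd, hsum, map_natCast] at h1
        have h2 : ∀ z : V →₀ ℕ, l (b (φF (coeff z f) * (z i : F) * ψ u (k + 1) (g + z))) =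
            φE (coeff z f) * (z i : E) * l (b (ψ u (k + 1) (g + z))) := by
          intro z
          rw [map_mul, map_mul, map_natCast, ← hab, ← map_natCast a, ← map_mul, hlin]
        simp only [h2] at h1
        rw [← map_natCast a, hlin] at h1
        exact h1
      · intro k g hg
        simp only [hsupp u k g hg, map_zero, hl0]
  choose Cf hCf using hC
  let C' : Matrix (Fin n) I Ω := Matrix.of fun i u => Cf u i
  let P : Matrix I (Fin n) Ω := Matrix.of fun w i => a (π' i (form w))
  have hsC : s = fun u x => ∑ i, C' i u * a (π' i x) := by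
    funext u x
    exact hCf u x
  -- the ranks
  have hCrank : ∀ y : I → Ω, C' *ᵥ y = 0 → y = 0 := by
    intro y hy
    have h1 := li_extend b (fun u => fun x : Forms W m => ψ u x.1.1 x.1.2) hind
    rw [Fintype.linearIndependent_iff] at h1
    funext u
    refine h1 y ?_ u
    funext x
    rw [Finset.sum_apply]
    simp only [Pi.smul_apply, smul_eq_mul, Pi.zero_apply]
    have h2 : ∀ u, y u * b (ψ u x.1.1 x.1.2) = ∑ i, (C' i u * y u) * a (π' i x) := by
      intro u
      have h3 : b (ψ u x.1.1 x.1.2) = ∑ i, C' i u * a (π' i x) := hCf u x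
      rw [h3, Finset.mul_sum]
      refine Finset.sum_congr rfl fun i _ => ?_
      ring
    simp only [h2]
    rw [Finset.sum_comm]
    refine Finset.sum_eq_zero fun i _ => ?_
    rw [← Finset.sum_mul]
    have h4 := congrFun hy i
    simp only [Matrix.mulVec, dotProduct, Pi.zero_apply] at h4
    rw [h4, zero_mul]
  have hPrank : ∀ z : I → Ω, z ᵥ* P = 0 → z = 0 := by
    intro z hz
    have h1 := li_extend a (fun w : I => fun i => π i 1 (expo w.1)) hsol.regular
    rw [Fintype.linearIndependent_iff] at h1
    funext w
    refine h1 z ?_ w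
    funext i
    rw [Finset.sum_apply]
    have h4 := congrFun hz i
    simp only [Matrix.vecMul, dotProduct, Pi.zero_apply] at h4
    simp only [Pi.smul_apply, smul_eq_mul, Pi.zero_apply]
    exact h4
  -- suppose that the determinant is zero
  by_contra hcon
  have hdet : (Matrix.of fun w u => ψ u (form w).1.1 (form w).1.2).det = 0 := by
    by_contra hdet
    apply hcon
    have h1 : IsUnit (Matrix.of fun u w : I => ψ u 1 (expo w.1)) := by
      rw [Matrix.isUnit_iff_isUnit_det, isUnit_iff_ne_zero, ← Matrix.det_transpose]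
      exact hdet
    exact Matrix.linearIndependent_rows_iff_isUnit.2 h1
  -- the derivatives of the determinant
  have hnab := fun (j : J) (Q : (I → Forms W m) →₀ R) => exists_nabla f hf D j Q
  choose nab hnab using hnab
  let iter : List J → (I → Forms W m) →₀ R := fun l => l.foldr nab (detT R form)
  have hiter : ∀ j l, iter (j :: l) = nab j (iter l) := fun j l => rfl
  have hzero : ∀ l, evT φF (fun u x => ψ u x.1.1 x.1.2) (iter l) = 0 := by
    intro l
    induction l with
    | nil =>
      change evT φF (fun u x => ψ u x.1.1 x.1.2) (detT R form) = 0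
      rw [evT_det]
      exact hdet
    | cons j l ih =>
      rw [hiter, ← hnab j (iter l) F φF δ hcompF ψ hper, ih, map_zero]
  let v : List J → (I → Fin n) → E := fun l κ => evT φE (fun u => π' (κ u)) (iter l)
  have hv : ∀ l j, ∃ l', ∀ κ, ε j (v l κ) = v l' κ := by
    intro l j
    refine ⟨j :: l, fun κ => ?_⟩
    have h1 := hnab j (iter l) E φE ε hcompE (fun u => π (κ u)) (fun u => hsol.period _)
    exact h1
  have hq : ∀ l, ∑ κ : I → Fin n, (∏ u, C' (κ u) u) * a (v l κ) = 0 := by
    intro l
    have h1 : evT (a.comp φE) s (iter l) = 0 := by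
      have h2 : a.comp φE = b.comp φF := RingHom.ext hab
      rw [h2]
      change evT (b.comp φF) (fun u x => b (ψ u x.1.1 x.1.2)) (iter l) = 0
      rw [evT_map, hzero, map_zero]
    rw [hsC] at h1
    have h3 := (evT_multi (a.comp φE) (fun i x => a (π' i x)) (fun i u => C' i u)
      (iter l)).symm.trans h1
    rw [← h3]
    refine Finset.sum_congr rfl fun κ _ => ?_
    congr 1
    exact (evT_map φE a (fun u => π' (κ u)) (iter l)).symm
  -- the transforms of the determinant
  have key : ∀ (γ : E →+* E), (∀ x, (∀ j, ε j x = 0) → γ x = x) →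
      ∀ g : Matrix (Fin n) (Fin n) E, (∀ i x, γ (π' i x) = ∑ i', π' i' x * g i' i) →
      (P * g.map a * C').det = 0 := by
    intro γ hγ g hg
    have h1 := const_map ε v hv a (fun κ => ∏ u, C' (κ u) u) hq γ hγ []
    have h2 : ∀ κ : I → Fin n, a (γ (v [] κ)) =
        evT (a.comp φE) (fun u x => a (γ (π' (κ u) x))) (detT R form) := by
      intro κ
      change a (γ (evT φE (fun u => π' (κ u)) (detT R form))) = _
      rw [evT_det, evT_det, ← RingHom.comp_apply, RingHom.map_det]
      congr 1
    simp only [h2] at h1
    have h3 := evT_multi (a.comp φE) (fun i x => a (γ (π' i x))) (fun i u => C' i u) (detT R form)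
    rw [h1, evT_det] at h3
    rw [← h3]
    congr 1
    ext w u
    simp only [Matrix.mul_apply, Matrix.of_apply, Matrix.map_apply]
    refine Finset.sum_congr rfl fun i _ => ?_
    rw [mul_comm]
    congr 1
    rw [hg, map_sum]
    refine Finset.sum_congr rfl fun i' _ => ?_
    rw [map_mul]
    rfl
  have hcard : Nat.card I = Fintype.card I := Nat.card_eq_fintype_card
  rcases hcase with hcase | hcase
  · -- all forms are regular
    have h1 := key (RingHom.id E) (fun x _ => rfl) 1 (fun i x => by
      simp only [RingHom.id_apply, Matrix.one_apply, mul_ite, mul_one, mul_zero]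
      simp)
    rw [Matrix.map_one _ (map_zero a) (map_one a), Matrix.mul_one] at h1
    have h2 : Fintype.card I = Fintype.card (Fin n) := by
      rw [Fintype.card_fin, ← hcard]
      exact hcase.symm
    obtain e := Fintype.equivOfCardEq h2
    have h3 : (P.submatrix id e * C'.submatrix e id).det = 0 := by
      rw [Matrix.submatrix_mul_equiv]
      simpa using h1
    rw [det_mul] at h3
    rcases mul_eq_zero.1 h3 with h4 | h4
    · obtain ⟨z, hz, hz'⟩ := exists_vecMul_eq_zero_iff.2 h4
      apply hz
      apply hPrank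
      funext i
      have h5 := congrFun hz' (e.symm i)
      simpa [Matrix.vecMul, dotProduct] using h5
    · obtain ⟨y, hy, hy'⟩ := exists_mulVec_eq_zero_iff.2 h4
      apply hy
      apply hCrank
      funext i
      have h5 := congrFun hy' (e.symm i)
      simpa [Matrix.mulVec, dotProduct] using h5
  · change Big (Nat.card I) _ at hcase
    rw [hcard] at hcase
    refine big_false a P hPrank C' hCrank hcase ?_
    rintro g ⟨_, γ, _, _, hγ, hg⟩
    exact key γ hγ g hg

end Pool.Agent.H19.Ord
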